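import Pool.Agent.Q55.SM.Defs
import Pool.Agent.Helper819.Gr.L5

/-!
The conjugation action and invariant quotients.
-/

open MvPolynomial

namespace Pool.Agent.Q55.SM

open Pool.Agent.Helper819.Dyn Pool.Agent.Helper819.Apolar

noncomputable section

set_option linter.unusedSectionVars false

variable {k : Type} [Field k] {N d : ℕ}

theorem conj_eq (φ : GL (Fin (N + 1)) k) (F : Tuple k N) (i : Fin (N + 1)) :
    conj φ F i = C ((φ : Matrix (Fin (N + 1)) (Fin (N + 1)) k).det⁻¹) *
      act (φ : Matrix (Fin (N + 1)) (Fin (N + 1)) k) F i := by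
  unfold conj act
  rw [Finset.mul_sum]
  refine Finset.sum_congr rfl fun j _ => ?_
  rw [← mul_assoc, ← C_mul]
  congr 2
  rw [Matrix.coe_units_inv, Matrix.inv_def, Matrix.smul_apply, Ring.inverse_eq_inv', smul_eq_mul]

theorem conjC_eq (φ : GL (Fin (N + 1)) k) (c : Ix N d → k) :
    conjC φ c = (φ : Matrix (Fin (N + 1)) (Fin (N + 1)) k).det⁻¹ •
      actT (φ : Matrix (Fin (N + 1)) (Fin (N + 1)) k) c := by
  unfold conjC actT
  rw [← cf_C_mul]
  congr 1
  funext i
  exact conj_eq φ _ i

/-- a matrix with nonzero determinant as an element of the general linear group -/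
def toGL (A : Matrix (Fin (N + 1)) (Fin (N + 1)) k) (hA : A.det ≠ 0) : GL (Fin (N + 1)) k :=
  Matrix.GeneralLinearGroup.mkOfDetNeZero A hA

theorem coe_toGL (A : Matrix (Fin (N + 1)) (Fin (N + 1)) k) (hA : A.det ≠ 0) :
    (toGL A hA : Matrix (Fin (N + 1)) (Fin (N + 1)) k) = A := rfl

theorem gl_det_ne (φ : GL (Fin (N + 1)) k) :
    (φ : Matrix (Fin (N + 1)) (Fin (N + 1)) k).det ≠ 0 :=
  ((Matrix.isUnit_iff_isUnit_det _).mp φ.isUnit).ne_zero

/-- invariant quotients in terms of `actT` -/
theorem InvQuot.gl {P Q : MvPolynomial (Ix N d) k} (h : InvQuot P Q)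
    (A : Matrix (Fin (N + 1)) (Fin (N + 1)) k) (hA : A.det ≠ 0) (c : Ix N d → k) :
    eval (actT A c) P * eval c Q = eval c P * eval (actT A c) Q := by
  have h1 := h c (toGL A hA) (Units.mk0 A.det hA)
  rw [conjC_eq, coe_toGL, Units.val_mk0, smul_smul, mul_inv_cancel₀ hA, one_smul] at h1
  exact h1

theorem smul_eq_actT [IsAlgClosed k] (hNd : 0 < N + d) (s : k) (hs : s ≠ 0) (c : Ix N d → k) :
    ∃ r : k, r ≠ 0 ∧ r ^ (N + d) = s ∧
      s • c = actT (r • (1 : Matrix (Fin (N + 1)) (Fin (N + 1)) k)) c := by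
  obtain ⟨r, hr⟩ := IsAlgClosed.exists_pow_nat_eq s hNd
  refine ⟨r, ?_, hr, ?_⟩
  · rintro rfl
    rw [zero_pow hNd.ne'] at hr
    exact hs hr.symm
  · rw [actT_scalar, hr]

/-- Quotients of semi-invariants of the same weight are invariant. -/
theorem invQuot_of_semi [IsAlgClosed k] (hNd : 0 < N + d) {w : ℕ}
    {P Q : MvPolynomial (Ix N d) k} (hP : IsSemi w P) (hQ : IsSemi w Q) : InvQuot P Q := by
  intro c φ t
  have hs : (t : k) * (φ : Matrix (Fin (N + 1)) (Fin (N + 1)) k).det⁻¹ ≠ 0 :=
    mul_ne_zero t.ne_zero (inv_ne_zero (gl_det_ne φ))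
  obtain ⟨r, _, _, h1⟩ := smul_eq_actT hNd _ hs
    (actT (φ : Matrix (Fin (N + 1)) (Fin (N + 1)) k) c)
  rw [conjC_eq, smul_smul, h1, actT_actT, hP, hQ]
  ring

theorem InvQuot.mul {P Q P' Q' : MvPolynomial (Ix N d) k} (h : InvQuot P Q)
    (h' : InvQuot P' Q') : InvQuot (P * P') (Q * Q') := by
  intro c φ t
  have h1 := h c φ t
  have h2 := h' c φ t
  simp only [map_mul]
  linear_combination (eval ((t : k) • conjC φ c) P' * eval c Q') * h1 +
    (eval c P * eval ((t : k) • conjC φ c) Q) * h2

theorem InvQuot.symm {P Q : MvPolynomial (Ix N d) k} (h : InvQuot P Q) : InvQuot Q P := by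
  intro c φ t
  have h1 := h c φ t
  linear_combination -h1

/-- Derivatives of invariant quotients along the orbit. -/
theorem InvQuot.tangent [Infinite k] {P Q : MvPolynomial (Ix N d) k} (h : InvQuot P Q)
    (Y : Matrix (Fin (N + 1)) (Fin (N + 1)) k) (c : Ix N d → k) :
    dd P c (xi Y c) * eval c Q = eval c P * dd Q c (xi Y c) := by
  -- the identity as polynomials in the matrix
  have key : aeval (orb c) P * C (eval c Q) = C (eval c P) * aeval (orb c) Q := by
    apply poly_ext
    intro A hA
    rw [map_mul, map_mul, eval_C, eval_C, eval_aeval_orb, eval_aeval_orb]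
    exact h.gl A hA c
  have h1 := congrArg (aeval (ent (oneEps (R := k) (S := DualNumber k) DualNumber.eps Y))) key
  rw [map_mul, map_mul, aeval_aeval_orb_S, aeval_aeval_orb_S] at h1
  have he : (DualNumber.eps : DualNumber k) * DualNumber.eps = 0 := DualNumber.eps_mul_eps
  have hact : actT (oneEps (R := k) (S := DualNumber k) DualNumber.eps Y)
      (fun p => algebraMap k (DualNumber k) (c p)) =
      fun p => algebraMap k (DualNumber k) (c p) +
        DualNumber.eps * algebraMap k (DualNumber k) (xi Y c p) := by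
    funext p
    exact actT_eps _ he Y c p
  have hev : ∀ R : MvPolynomial (Ix N d) k,
      aeval (fun p => algebraMap k (DualNumber k) (c p) +
        DualNumber.eps * algebraMap k (DualNumber k) (xi Y c p)) R =
      algebraMap k (DualNumber k) (eval c R) +
        DualNumber.eps * algebraMap k (DualNumber k) (dd R c (xi Y c)) := by
    intro R
    exact eval_eps _ he c (xi Y c) R
  rw [hact, hev, hev, algHom_C, algHom_C] at h1
  have h2 := congrArg TrivSqZeroExt.snd h1
  have e1 : (algebraMap k (DualNumber k) (eval c P) +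
      DualNumber.eps * algebraMap k (DualNumber k) (dd P c (xi Y c))) *
        algebraMap k (DualNumber k) (eval c Q) =
      algebraMap k (DualNumber k) (eval c P * eval c Q) +
        DualNumber.eps * algebraMap k (DualNumber k) (dd P c (xi Y c) * eval c Q) := by
    rw [map_mul, map_mul]; ring
  have e2 : algebraMap k (DualNumber k) (eval c P) *
      (algebraMap k (DualNumber k) (eval c Q) +
        DualNumber.eps * algebraMap k (DualNumber k) (dd Q c (xi Y c))) =
      algebraMap k (DualNumber k) (eval c P * eval c Q) +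
        DualNumber.eps * algebraMap k (DualNumber k) (eval c P * dd Q c (xi Y c)) := by
    rw [map_mul, map_mul]; ring
  rw [e1, e2, snd_form, snd_form] at h2
  exact h2

/-- The conjugation action with its derivative. -/
def CA (N d : ℕ) : Pool.Agent.Helper819.Gr.DAct Unit (N + 1) (Ix N d) where
  act A c := actT (A ()) c
  map_act φ A c p := map_actT φ (A ()) c p
  act_act A B c := actT_actT (A ()) (B ()) c
  act_one c := actT_one c
  act_add A c c' := actT_add (A ()) c c'
  act_smul A r c := actT_smul (A ()) r c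
  xi Y c := xi (Y ()) c
  xi_add Y Y' c := xi_add (Y ()) (Y' ()) c
  xi_smul r Y c := xi_smul r (Y ()) c
  map_xi φ Y c p := map_xi φ (Y ()) c p
  act_eps {R S} _ _ _ e he Y c p := by
    have h1 := actT_eps (R := R) (S := S) e he (Y ()) c p
    exact h1

theorem isSemi_iff {w : ℕ} {P : MvPolynomial (Ix N d) k} :
    Pool.Agent.Helper819.Gr.IsSemi (CA N d).toRAct (fun _ => w) P ↔ IsSemi w P := by
  constructor
  · intro h A c
    have h1 := h (fun _ => A) c
    simpa [Pool.Agent.Helper819.Gr.detw, CA] using h1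
  · intro h A c
    have h1 := h (A ()) c
    simpa [Pool.Agent.Helper819.Gr.detw, CA] using h1

theorem ne_zero_of_NZ {f : Ix N d → k} (hf : NZ (tup f)) : f ≠ 0 := by
  rintro rfl
  have h1 : (fun _ => 1 : Fin (N + 1) → k) = 0 := by
    apply hf
    intro i
    have : tup (0 : Ix N d → k) i = 0 := by
      unfold tup
      simp
    rw [this, map_zero]
  exact one_ne_zero (congrFun h1 0)

/-- Linear forms on the normal space at a point without automorphisms are differentials of
semi-invariants. -/
theorem exists_semi_diff [IsAlgClosed k] [CharZero k] (hd : 2 ≤ d) {x : Ix N d → k}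
    (hx : NZ (tup x)) (haut : ¬ HasAut x) {r : ℕ} {D : MvPolynomial (Ix N d) k}
    (hD : IsSemi r D) (hNZ : ∀ c, eval c D ≠ 0 → NZ (tup c))
    (η : (Ix N d → k) →ₗ[k] k) (hη : ∀ Y, η (xi Y x) = 0) :
    ∃ (m : ℕ) (q : MvPolynomial (Ix N d) k), IsSemi (m * r) q ∧ eval x q = 0 ∧
      ∀ v, dd q x v = eval x D ^ m * η v := by
  classical
  have hmin : ∀ c : Ix N d → k, eval c D ≠ 0 → (∀ P : MvPolynomial (Ix N d) k,
      aeval (Pool.Agent.Helper819.Gr.orb (CA N d).toRAct x) P = 0 → eval c P = 0) →
      ∀ P : MvPolynomial (Ix N d) k,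
        aeval (Pool.Agent.Helper819.Gr.orb (CA N d).toRAct c) P = 0 → eval x P = 0 := by
    intro c hc hcl P hP
    obtain ⟨A, hA, hAc⟩ := closed_GL hd hx c (hNZ c hc) (by
      intro P hP
      apply hcl
      apply Pool.Agent.Helper819.Gr.poly_ext
      intro B hB
      rw [Pool.Agent.Helper819.Gr.eval_aeval_orb, map_zero]
      exact hP (B ()) (hB ()))
    have h1 := Pool.Agent.Helper819.Gr.eval_aeval_orb (CA N d).toRAct (fun _ => A⁻¹) c P
    rw [hP, map_zero] at h1
    have h2 : (CA N d).toRAct.act (fun _ => A⁻¹) c = x := by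
      change actT A⁻¹ c = x
      rw [← hAc, actT_actT, Matrix.mul_nonsing_inv _ (isUnit_iff_ne_zero.mpr hA), actT_one]
    rw [h2] at h1
    exact h1.symm
  obtain ⟨m, q, hq, hord, hlf⟩ := Pool.Agent.Helper819.Gr.exists_lead (CA N d) x
    (isSemi_iff.mpr hD) hmin 1 (Pool.Agent.Helper819.Gr.lin η)
    (Pool.Agent.Helper819.Gr.lin_homog η) (by
      intro Y v
      rw [Pool.Agent.Helper819.Gr.eval_lin, Pool.Agent.Helper819.Gr.eval_lin, map_add]
      have : η ((CA N d).xi Y x) = 0 := hη (Y ())
      rw [this, add_zero]) (by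
      intro A hA hAx v
      by_cases hs : ∀ t : k, A () ≠ t • 1
      · exfalso
        apply haut
        refine ⟨A (), hA (), hs, 1, ?_⟩
        rw [one_smul]
        exact hAx
      · push Not at hs
        obtain ⟨t, ht⟩ := hs
        have h1 : actT (A ()) x = x := hAx
        rw [ht, actT_scalar] at h1
        have h2 : t ^ (N + d) = 1 := by
          by_contra hne
          have h3 : (t ^ (N + d) - 1) • x = 0 := by rw [sub_smul, h1, one_smul, sub_self]
          rcases smul_eq_zero.mp h3 with h4 | h4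
          · exact hne (sub_eq_zero.mp h4)
          · exact ne_zero_of_NZ hx h4
        have h3 : (CA N d).act A v = v := by
          change actT (A ()) v = v
          rw [ht, actT_scalar, h2, one_smul]
        rw [h3])
  refine ⟨m, q, ?_, ?_, ?_⟩
  · have : (m • fun _ : Unit => r) = fun _ => m * r := by
      funext _
      simp
    rw [this] at hq
    exact isSemi_iff.mp hq
  · have h1 := congrArg (eval (0 : Ix N d → k)) (hord 0 one_pos)
    rw [Pool.Agent.Helper819.Gr.eval_lf, Pool.Agent.Helper819.Gr.tayl_coeff_zero, map_zero] at h1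
    rw [← h1, ← coe_aeval_eq_eval]
    rfl
  · intro v
    have h1 := hlf v
    rw [Pool.Agent.Helper819.Gr.eval_lf, Pool.Agent.Helper819.Gr.eval_lin] at h1
    rw [← h1]
    have h2 := Pool.Agent.Helper819.Gr.tayl_coeff_one x v q
    rw [h2]
    unfold dd
    refine Finset.sum_congr rfl fun p _ => ?_
    rw [← coe_aeval_eq_eval]
    rfl

end

end Pool.Agent.Q55.SM
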