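import Pool.Agent.Helper819.Gr.Lead5
import Pool.Agent.Helper819.LieInj
import Pool.Agent.Helper819.Tan

/-!
The local rings of the moduli space `M_d^N = End_d^N / PGL_{N+1}`.
-/

open MvPolynomial

namespace Pool.Agent.Q55.SM

open Pool.Agent.Helper819.Dyn Pool.Agent.Helper819.Apolar

noncomputable section

set_option linter.unusedSectionVars false

/-- Rational functions in the coefficients of `N + 1` forms of degree `d` in `N + 1` variables. -/
abbrev RF (k : Type) [Field k] (N d : ℕ) : Type := FractionRing (MvPolynomial (Ix N d) k)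

variable {k : Type} [Field k] {N d : ℕ}

/-- The coefficients of `φ⁻¹ ∘ f ∘ φ`, where `c` are the coefficients of `f`. -/
def conjC (φ : GL (Fin (N + 1)) k) (c : Ix N d → k) : Ix N d → k := cf (conj φ (tup c))

/-- The rational function `P / Q` in the coefficients of a map `f` does not change when `f` is
conjugated by an element `φ` of the general linear group and multiplied by a scalar `t`. -/
def InvQuot (P Q : MvPolynomial (Ix N d) k) : Prop :=
  ∀ (c : Ix N d → k) (φ : GL (Fin (N + 1)) k) (t : kˣ),
    eval ((t : k) • conjC φ c) P * eval c Q = eval c P * eval ((t : k) • conjC φ c) Q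

/-- The rational functions `P / Q` on `End_d^N` which are invariant under `PGL_{N+1}` (conjugation
and multiplication of the tuple by a scalar) and regular at `f`. -/
def locSet (f : Ix N d → k) : Set (RF k N d) :=
  {h | ∃ P Q : MvPolynomial (Ix N d) k, eval f Q ≠ 0 ∧ InvQuot P Q ∧
    h * algebraMap _ (RF k N d) Q = algebraMap _ (RF k N d) P}

theorem locSet_mul {f : Ix N d → k} {a b : RF k N d} (ha : a ∈ locSet f) (hb : b ∈ locSet f) :
    a * b ∈ locSet f := by
  obtain ⟨P, Q, hQ, hPQ, ha⟩ := ha
  obtain ⟨P', Q', hQ', hPQ', hb⟩ := hb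
  refine ⟨P * P', Q * Q', by rw [map_mul]; exact mul_ne_zero hQ hQ', ?_, ?_⟩
  · intro c φ t
    have h1 := hPQ c φ t
    have h2 := hPQ' c φ t
    simp only [map_mul]
    linear_combination (eval ((t : k) • conjC φ c) P' * eval c Q') * h1 +
      (eval c P * eval ((t : k) • conjC φ c) Q) * h2
  · rw [map_mul, map_mul, ← ha, ← hb]
    ring

theorem locSet_add {f : Ix N d → k} {a b : RF k N d} (ha : a ∈ locSet f) (hb : b ∈ locSet f) :
    a + b ∈ locSet f := by
  obtain ⟨P, Q, hQ, hPQ, ha⟩ := ha
  obtain ⟨P', Q', hQ', hPQ', hb⟩ := hb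
  refine ⟨P * Q' + P' * Q, Q * Q', by rw [map_mul]; exact mul_ne_zero hQ hQ', ?_, ?_⟩
  · intro c φ t
    have h1 := hPQ c φ t
    have h2 := hPQ' c φ t
    simp only [map_mul, map_add]
    linear_combination (eval ((t : k) • conjC φ c) Q' * eval c Q') * h1 +
      (eval ((t : k) • conjC φ c) Q * eval c Q) * h2
  · rw [map_add, map_mul, map_mul, map_mul, ← ha, ← hb]
    ring

theorem locSet_const (f : Ix N d → k) (r : k) : algebraMap k (RF k N d) r ∈ locSet f :=
  ⟨C r, 1, by rw [map_one]; exact one_ne_zero, fun c φ t => by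
    simp only [map_one, eval_C], by
      rw [map_one, mul_one, IsScalarTower.algebraMap_apply k (MvPolynomial (Ix N d) k) (RF k N d)]
      rfl⟩

/-- The local ring of `M_d^N = End_d^N / PGL_{N+1}` at the class of the map with coefficients `f`:
the rational functions `P / Q` on `End_d^N` which are invariant under `PGL_{N+1}` and regular at
`f`. -/
def locRing (f : Ix N d → k) : Subalgebra k (RF k N d) where
  carrier := locSet f
  mul_mem' := locSet_mul
  add_mem' := locSet_add
  algebraMap_mem' := locSet_const f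

/-- `f` has an automorphism which is not a scalar (up to a scalar factor). -/
def HasAut (f : Ix N d → k) : Prop :=
  ∃ B : Matrix (Fin (N + 1)) (Fin (N + 1)) k, B.det ≠ 0 ∧ (∀ t : k, B ≠ t • 1) ∧
    ∃ c : k, actT B f = c • f

/-- the indices `(i, α)` with `l ^ α ≠ l i` -/
def bad (l : Fin (N + 1) → k) : Finset (Ix N d) := by
  classical
  exact Finset.univ.filter (fun p => ∏ j, l j ^ p.2.1 j ≠ l p.1)

/-- the pairs of indices with `l i ≠ l j` -/
def off (l : Fin (N + 1) → k) : Finset (Fin (N + 1) × Fin (N + 1)) := by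
  classical
  exact Finset.univ.filter (fun p => l p.1 ≠ l p.2)

theorem mem_bad (l : Fin (N + 1) → k) (p : Ix N d) :
    p ∈ bad l ↔ ∏ j, l j ^ p.2.1 j ≠ l p.1 := by
  classical
  unfold bad
  simp

theorem mem_off (l : Fin (N + 1) → k) (p : Fin (N + 1) × Fin (N + 1)) :
    p ∈ off l ↔ l p.1 ≠ l p.2 := by
  classical
  unfold off
  simp

/-- The dimension of `M_d^N`. -/
def mdim (N d : ℕ) : ℕ := Fintype.card (Ix N d) - (N + 1) ^ 2

end

end Pool.Agent.Q55.SM
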