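import Pool.Agent.Q55.SM.Act

/-!
The ring of rational functions regular at a point, and directional derivatives.
-/

open MvPolynomial

namespace Pool.Agent.Q55.SM

open Pool.Agent.Helper819.Dyn Pool.Agent.Helper819.Apolar

noncomputable section

set_option linter.unusedSectionVars false

variable {k : Type} [Field k] {N d : ℕ}

/-- inclusion of the polynomials in the rational functions -/
abbrev inc (k : Type) [Field k] (N d : ℕ) : MvPolynomial (Ix N d) k →ₐ[k] RF k N d :=
  IsScalarTower.toAlgHom k (MvPolynomial (Ix N d) k) (RF k N d)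

theorem inc_inj {P Q : MvPolynomial (Ix N d) k} (h : inc k N d P = inc k N d Q) : P = Q :=
  IsFractionRing.injective (MvPolynomial (Ix N d) k) (RF k N d) h

theorem inc_ne {P : MvPolynomial (Ix N d) k} (h : P ≠ 0) : inc k N d P ≠ 0 := by
  intro h0
  apply h
  apply inc_inj
  rw [h0, map_zero]

/-- the ring homomorphism `P ↦ P + e dP(v)` -/
def phi0 (v : Ix N d → k) : MvPolynomial (Ix N d) k →ₐ[k] DualNumber (RF k N d) :=
  aeval (fun p => algebraMap (RF k N d) (DualNumber (RF k N d)) (inc k N d (X p)) +
    DualNumber.eps * algebraMap (RF k N d) (DualNumber (RF k N d)) (algebraMap k (RF k N d) (v p)))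

/-- the polynomial `dP(v)` -/
def pd (v : Ix N d → k) (P : MvPolynomial (Ix N d) k) : MvPolynomial (Ix N d) k :=
  ∑ p, C (v p) * pderiv p P

theorem eval_pd (v : Ix N d → k) (P : MvPolynomial (Ix N d) k) (x : Ix N d → k) :
    eval x (pd v P) = dd P x v := by
  unfold pd dd
  rw [map_sum]
  refine Finset.sum_congr rfl fun p _ => ?_
  rw [map_mul, eval_C]

theorem pd_add (v : Ix N d → k) (P Q : MvPolynomial (Ix N d) k) :
    pd v (P + Q) = pd v P + pd v Q := by
  unfold pd
  simp only [map_add, mul_add, Finset.sum_add_distrib]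

theorem pd_mul (v : Ix N d → k) (P Q : MvPolynomial (Ix N d) k) :
    pd v (P * Q) = pd v P * Q + P * pd v Q := by
  unfold pd
  simp only [pderiv_mul, mul_add, Finset.sum_add_distrib, Finset.sum_mul, Finset.mul_sum]
  congr 1
  · exact Finset.sum_congr rfl fun p _ => by ring
  · exact Finset.sum_congr rfl fun p _ => by ring

theorem pd_C (v : Ix N d → k) (a : k) : pd v (C a) = 0 := by
  unfold pd
  simp

theorem pd_X (v : Ix N d → k) (p : Ix N d) : pd v (X p) = C (v p) := by
  classical
  unfold pd
  rw [Finset.sum_eq_single p]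
  · rw [pderiv_X_self, mul_one]
  · intro q _ hq
    rw [pderiv_X_of_ne (Ne.symm hq), mul_zero]
  · simp

theorem phi0_eq (v : Ix N d → k) (P : MvPolynomial (Ix N d) k) :
    phi0 v P = algebraMap (RF k N d) (DualNumber (RF k N d)) (inc k N d P) +
      DualNumber.eps * algebraMap (RF k N d) (DualNumber (RF k N d)) (inc k N d (pd v P)) := by
  have he : (DualNumber.eps : DualNumber (RF k N d)) * DualNumber.eps = 0 :=
    DualNumber.eps_mul_eps
  induction P using MvPolynomial.induction_on with
  | C a =>
    rw [pd_C, map_zero, map_zero, mul_zero, add_zero]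
    have h1 : phi0 v (C a) = algebraMap k (DualNumber (RF k N d)) a := (phi0 v).commutes a
    rw [h1]
    have h2 : inc k N d (C a) = algebraMap k (RF k N d) a := (inc k N d).commutes a
    rw [h2, ← IsScalarTower.algebraMap_apply]
  | add p q hp hq =>
    rw [map_add, hp, hq, pd_add, map_add, map_add, map_add, map_add]
    ring
  | mul_X p i hp =>
    have h2 : phi0 v (X i) = algebraMap (RF k N d) (DualNumber (RF k N d)) (inc k N d (X i)) +
        DualNumber.eps * algebraMap (RF k N d) (DualNumber (RF k N d))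
          (algebraMap k (RF k N d) (v i)) := aeval_X _ _
    have h3 : inc k N d (C (v i)) = algebraMap k (RF k N d) (v i) := (inc k N d).commutes _
    rw [map_mul, hp, h2, pd_mul, pd_X, map_mul, map_mul, map_add, map_mul, map_mul, map_add,
      map_mul, map_mul, h3]
    linear_combination (algebraMap (RF k N d) (DualNumber (RF k N d)) (inc k N d (pd v p)) *
      algebraMap (RF k N d) (DualNumber (RF k N d)) (algebraMap k (RF k N d) (v i))) * he

theorem fst_form' {K : Type} [Field K] (a b : K) : TrivSqZeroExt.fst (algebraMap K (DualNumber K) a +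
    DualNumber.eps * algebraMap K (DualNumber K) b) = a := by
  rw [TrivSqZeroExt.fst_add, TrivSqZeroExt.fst_mul, DualNumber.fst_eps, zero_mul, add_zero]
  rfl

theorem snd_form' {K : Type} [Field K] (a b : K) : TrivSqZeroExt.snd (algebraMap K (DualNumber K) a +
    DualNumber.eps * algebraMap K (DualNumber K) b) = b := by
  have h1 : (DualNumber.eps : DualNumber K) * algebraMap K (DualNumber K) b =
      b • DualNumber.eps := by
    rw [mul_comm, Algebra.smul_def]
  rw [h1, TrivSqZeroExt.snd_add, TrivSqZeroExt.snd_smul, DualNumber.snd_eps, smul_eq_mul, mul_one]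
  change TrivSqZeroExt.snd (TrivSqZeroExt.inl a : DualNumber K) + b = b
  rw [TrivSqZeroExt.snd_inl, zero_add]

theorem phi0_unit (v : Ix N d → k) (y : nonZeroDivisors (MvPolynomial (Ix N d) k)) :
    IsUnit ((phi0 v : MvPolynomial (Ix N d) k →+* DualNumber (RF k N d)) y) := by
  change IsUnit (phi0 v y.1)
  have h1 : (phi0 v y.1).fst = inc k N d y.1 := by
    rw [phi0_eq, fst_form']
  rw [TrivSqZeroExt.isUnit_iff_isUnit_fst, h1]
  exact (inc_ne (nonZeroDivisors.ne_zero y.2)).isUnit

/-- the extension to rational functions -/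
def phi (v : Ix N d → k) : RF k N d →+* DualNumber (RF k N d) :=
  IsLocalization.lift (M := nonZeroDivisors (MvPolynomial (Ix N d) k))
    (g := (phi0 v : MvPolynomial (Ix N d) k →+* DualNumber (RF k N d))) (phi0_unit v)

theorem phi_inc (v : Ix N d → k) (P : MvPolynomial (Ix N d) k) :
    phi v (inc k N d P) = phi0 v P :=
  IsLocalization.lift_eq (phi0_unit v) P

theorem phi_fst (v : Ix N d → k) (h : RF k N d) : (phi v h).fst = h := by
  have h1 : ((TrivSqZeroExt.fstHom k (RF k N d) (RF k N d) : DualNumber (RF k N d) →+* RF k N d).comp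
      (phi v)) = RingHom.id _ := by
    apply IsLocalization.ringHom_ext (nonZeroDivisors (MvPolynomial (Ix N d) k))
    apply RingHom.ext
    intro P
    change (phi v (inc k N d P)).fst = inc k N d P
    rw [phi_inc, phi0_eq, fst_form']
  exact congrArg (fun f => f h) h1

/-- The derivative of rational functions in the direction `v`. -/
def der (v : Ix N d → k) : Derivation k (RF k N d) (RF k N d) where
  toFun h := (phi v h).snd
  map_add' a b := by
    change (phi v (a + b)).snd = _
    rw [map_add, TrivSqZeroExt.snd_add]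
  map_smul' r a := by
    change (phi v (r • a)).snd = r • (phi v a).snd
    have h1 : (algebraMap k (RF k N d) r) = inc k N d (C r) := ((inc k N d).commutes r).symm
    have h2 : TrivSqZeroExt.snd (algebraMap (RF k N d) (DualNumber (RF k N d))
        (inc k N d (C r))) = 0 := TrivSqZeroExt.snd_inl _ _
    have h3 : TrivSqZeroExt.fst (algebraMap (RF k N d) (DualNumber (RF k N d))
        (inc k N d (C r))) = inc k N d (C r) := TrivSqZeroExt.fst_inl _ _
    have h4 : phi v (algebraMap k (RF k N d) r) =
        algebraMap (RF k N d) (DualNumber (RF k N d)) (inc k N d (C r)) := by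
      rw [h1, phi_inc, phi0_eq, pd_C, map_zero, map_zero, mul_zero, add_zero]
    rw [Algebra.smul_def r a, Algebra.smul_def r (phi v a).snd, map_mul, h4,
      TrivSqZeroExt.snd_mul, h2, h3, smul_zero, add_zero, smul_eq_mul, h1]
  map_one_eq_zero' := by
    change (phi v 1).snd = 0
    rw [map_one, TrivSqZeroExt.snd_one]
  leibniz' a b := by
    change (phi v (a * b)).snd = a • (phi v b).snd + b • (phi v a).snd
    rw [map_mul, TrivSqZeroExt.snd_mul, phi_fst, phi_fst]
    simp [smul_eq_mul, mul_comm]

theorem der_inc (v : Ix N d → k) (P : MvPolynomial (Ix N d) k) :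
    der v (inc k N d P) = inc k N d (pd v P) := by
  change (phi v (inc k N d P)).snd = _
  rw [phi_inc, phi0_eq, snd_form']

/-- derivative of a quotient -/
theorem der_quot (v : Ix N d → k) {h : RF k N d} {P Q : MvPolynomial (Ix N d) k}
    (hh : h * inc k N d Q = inc k N d P) :
    der v h * inc k N d (Q * Q) = inc k N d (pd v P * Q - P * pd v Q) := by
  have h1 := congrArg (der v) hh
  rw [Derivation.leibniz, der_inc, der_inc, smul_eq_mul, smul_eq_mul] at h1
  have h2 : inc k N d (pd v P * Q - P * pd v Q) =
      inc k N d (pd v P) * inc k N d Q - inc k N d P * inc k N d (pd v Q) := by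
    rw [map_sub, map_mul, map_mul]
  rw [h2, ← h1, ← hh, map_mul]
  ring

/-- the maximal ideal of a point -/
def mId (f : Ix N d → k) : Ideal (MvPolynomial (Ix N d) k) := RingHom.ker (eval f)

theorem mem_mId (f : Ix N d → k) (P : MvPolynomial (Ix N d) k) :
    P ∈ mId f ↔ eval f P = 0 := RingHom.mem_ker

instance (f : Ix N d → k) : (mId f).IsPrime := RingHom.ker_isPrime _

/-- The rational functions which are regular at `f`. -/
def regRing (f : Ix N d → k) : Subalgebra k (RF k N d) where
  carrier := {h | ∃ P Q : MvPolynomial (Ix N d) k, eval f Q ≠ 0 ∧ h * inc k N d Q = inc k N d P}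
  mul_mem' := by
    rintro a b ⟨P, Q, hQ, ha⟩ ⟨P', Q', hQ', hb⟩
    refine ⟨P * P', Q * Q', by rw [map_mul]; exact mul_ne_zero hQ hQ', ?_⟩
    rw [map_mul, map_mul, ← ha, ← hb]
    ring
  add_mem' := by
    rintro a b ⟨P, Q, hQ, ha⟩ ⟨P', Q', hQ', hb⟩
    refine ⟨P * Q' + P' * Q, Q * Q', by rw [map_mul]; exact mul_ne_zero hQ hQ', ?_⟩
    rw [map_add, map_mul, map_mul, map_mul, ← ha, ← hb]
    ring
  algebraMap_mem' := fun r => ⟨C r, 1, by rw [map_one]; exact one_ne_zero, by
      rw [map_one, mul_one]
      exact ((inc k N d).commutes r).symm⟩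

theorem locRing_le (f : Ix N d → k) : locRing f ≤ regRing f := by
  rintro h ⟨P, Q, hQ, _, hh⟩
  exact ⟨P, Q, hQ, hh⟩

theorem inc_mem (f : Ix N d → k) (P : MvPolynomial (Ix N d) k) : inc k N d P ∈ regRing f :=
  ⟨P, 1, by rw [map_one]; exact one_ne_zero, by rw [map_one, mul_one]⟩

/-- the algebra structure -/
instance algReg (f : Ix N d → k) : Algebra (MvPolynomial (Ix N d) k) (regRing f) :=
  ((inc k N d).codRestrict (regRing f) (inc_mem f)).toRingHom.toAlgebra

theorem coe_algebraMap (f : Ix N d → k) (P : MvPolynomial (Ix N d) k) :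
    ((algebraMap (MvPolynomial (Ix N d) k) (regRing f) P : regRing f) : RF k N d) =
      inc k N d P := rfl

theorem ne_of_eval {f : Ix N d → k} {Q : MvPolynomial (Ix N d) k} (h : eval f Q ≠ 0) : Q ≠ 0 := by
  rintro rfl
  exact h (map_zero _)

instance isLoc (f : Ix N d → k) : IsLocalization.AtPrime (regRing f) (mId f) where
  map_units := by
    rintro ⟨Q, hQ⟩
    have hQ' : eval f Q ≠ 0 := fun h => hQ ((mem_mId f Q).mpr h)
    have hQ0 := inc_ne (ne_of_eval hQ')
    refine IsUnit.of_mul_eq_one ⟨(inc k N d Q)⁻¹, 1, Q, hQ', ?_⟩ ?_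
    · rw [inv_mul_cancel₀ hQ0, map_one]
    · apply Subtype.ext
      change inc k N d Q * (inc k N d Q)⁻¹ = 1
      exact mul_inv_cancel₀ hQ0
  surj := by
    rintro ⟨h, P, Q, hQ, hh⟩
    refine ⟨(P, ⟨Q, fun hm => hQ ((mem_mId f Q).mp hm)⟩), ?_⟩
    apply Subtype.ext
    exact hh
  exists_of_eq := by
    intro P Q hPQ
    refine ⟨1, ?_⟩
    have h1 : inc k N d P = inc k N d Q := congrArg Subtype.val hPQ
    rw [inc_inj h1]

instance (f : Ix N d → k) : IsLocalRing (regRing f) :=
  IsLocalization.AtPrime.isLocalRing (regRing f) (mId f)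

instance (f : Ix N d → k) : IsNoetherianRing (regRing f) :=
  IsLocalization.isNoetherianRing (mId f).primeCompl (regRing f) inferInstance

theorem der_mem (f v : Ix N d → k) {h : RF k N d} (hh : h ∈ regRing f) :
    der v h ∈ regRing f := by
  obtain ⟨P, Q, hQ, hPQ⟩ := hh
  refine ⟨pd v P * Q - P * pd v Q, Q * Q, ?_, der_quot v hPQ⟩
  rw [map_mul]
  exact mul_ne_zero hQ hQ

/-- the derivative on the ring of functions regular at `f` -/
def derR (f v : Ix N d → k) : Derivation k (regRing f) (regRing f) where
  toFun h := ⟨der v h.1, der_mem f v h.2⟩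
  map_add' a b := by
    apply Subtype.ext
    exact map_add (der v) a.1 b.1
  map_smul' r a := by
    apply Subtype.ext
    exact Derivation.map_smul (der v) r a.1
  map_one_eq_zero' := by
    apply Subtype.ext
    exact Derivation.map_one_eq_zero (der v)
  leibniz' a b := by
    apply Subtype.ext
    exact Derivation.leibniz (der v) a.1 b.1

theorem coe_derR (f v : Ix N d → k) (h : regRing f) : (derR f v h : RF k N d) = der v h.1 := rfl

/-- value at `f` -/
def ev (f : Ix N d → k) : regRing f →+* k :=
  IsLocalization.lift (M := (mId f).primeCompl) (S := regRing f) (g := eval f) (by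
    rintro ⟨Q, hQ⟩
    exact (isUnit_iff_ne_zero.mpr fun h => hQ ((mem_mId f Q).mpr h)))

theorem ev_algebraMap (f : Ix N d → k) (P : MvPolynomial (Ix N d) k) :
    ev f (algebraMap _ (regRing f) P) = eval f P :=
  IsLocalization.lift_eq (M := (mId f).primeCompl) _ P

theorem ev_quot (f : Ix N d → k) (h : regRing f) {P Q : MvPolynomial (Ix N d) k}
    (hh : h.1 * inc k N d Q = inc k N d P) : ev f h * eval f Q = eval f P := by
  have h1 : h * algebraMap _ (regRing f) Q = algebraMap _ (regRing f) P := Subtype.ext hh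
  have h2 := congrArg (ev f) h1
  rw [map_mul, ev_algebraMap, ev_algebraMap] at h2
  exact h2

theorem ev_const (f : Ix N d → k) (a : k) : ev f (algebraMap k (regRing f) a) = a := by
  have h0 : algebraMap k (regRing f) a =
      algebraMap (MvPolynomial (Ix N d) k) (regRing f) (C a) := by
    apply Subtype.ext
    exact ((inc k N d).commutes a).symm
  rw [h0, ev_algebraMap, eval_C]

theorem mem_max_iff (f : Ix N d → k) (h : regRing f) :
    h ∈ IsLocalRing.maximalIdeal (regRing f) ↔ ev f h = 0 := by
  rw [IsLocalRing.mem_maximalIdeal, mem_nonunits_iff]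
  constructor
  · intro hu
    by_contra h0
    apply hu
    obtain ⟨P, Q, hQ, hh⟩ := h.2
    have h1 := ev_quot f h hh
    have hP : eval f P ≠ 0 := by
      rw [← h1]
      exact mul_ne_zero h0 hQ
    have hP0 := inc_ne (ne_of_eval hP)
    have hQ0 := inc_ne (ne_of_eval hQ)
    refine IsUnit.of_mul_eq_one ⟨inc k N d Q * (inc k N d P)⁻¹, Q, P, hP, ?_⟩ ?_
    · rw [mul_assoc, inv_mul_cancel₀ hP0, mul_one]
    · apply Subtype.ext
      change h.1 * (inc k N d Q * (inc k N d P)⁻¹) = 1
      rw [← mul_assoc]
      have : h.1 * inc k N d Q = inc k N d P := hh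
      rw [this, mul_inv_cancel₀ hP0]
  · intro h0 hu
    have := hu.map (ev f)
    rw [h0] at this
    exact not_isUnit_zero this

end

end Pool.Agent.Q55.SM
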