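import Pool.Agent.Q55.SM.Der

/-!
The local rings `locRing f`: they only depend on the orbit of `f` and are local.
-/

open MvPolynomial

namespace Pool.Agent.Q55.SM

open Pool.Agent.Helper819.Dyn Pool.Agent.Helper819.Apolar

noncomputable section

set_option linter.unusedSectionVars false

variable {k : Type} [Field k] {N d : ℕ}

/-- `InvQuot` for all scalar multiples -/
theorem InvQuot.gen {P Q : MvPolynomial (Ix N d) k} (h : InvQuot P Q)
    (A : Matrix (Fin (N + 1)) (Fin (N + 1)) k) (hA : A.det ≠ 0) (s : k) (hs : s ≠ 0)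
    (c : Ix N d → k) :
    eval (s • actT A c) P * eval c Q = eval c P * eval (s • actT A c) Q := by
  have h1 := h c (toGL A hA) (Units.mk0 (s * A.det) (mul_ne_zero hs hA))
  rw [conjC_eq, coe_toGL, Units.val_mk0, smul_smul, mul_assoc, mul_inv_cancel₀ hA, mul_one] at h1
  exact h1

theorem InvQuot.comp {P Q : MvPolynomial (Ix N d) k} (h : InvQuot P Q)
    (A : Matrix (Fin (N + 1)) (Fin (N + 1)) k) (hA : A.det ≠ 0) :
    InvQuot (compT A⁻¹ P) (compT A⁻¹ Q) := by
  intro c φ t
  have hu : IsUnit A.det := isUnit_iff_ne_zero.mpr hA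
  have hdet : (A * (φ : Matrix (Fin (N + 1)) (Fin (N + 1)) k) * A⁻¹).det ≠ 0 := by
    rw [Matrix.det_mul, Matrix.det_mul]
    exact mul_ne_zero (mul_ne_zero hA (gl_det_ne φ)) (by
      rw [Matrix.det_nonsing_inv]
      exact (hu.ringInverse).ne_zero)
  have h1 := h.gen (A * (φ : Matrix (Fin (N + 1)) (Fin (N + 1)) k) * A⁻¹) hdet
    ((t : k) * (φ : Matrix (Fin (N + 1)) (Fin (N + 1)) k).det⁻¹)
    (mul_ne_zero t.ne_zero (inv_ne_zero (gl_det_ne φ))) (actT A⁻¹ c)
  have h2 : actT (A * (φ : Matrix (Fin (N + 1)) (Fin (N + 1)) k) * A⁻¹) (actT A⁻¹ c) =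
      actT A⁻¹ (actT (φ : Matrix (Fin (N + 1)) (Fin (N + 1)) k) c) := by
    rw [actT_actT, actT_actT]
    congr 1
    rw [← Matrix.mul_assoc, ← Matrix.mul_assoc, Matrix.nonsing_inv_mul _ hu, Matrix.one_mul]
  rw [h2] at h1
  rw [eval_compT, eval_compT, eval_compT, eval_compT, conjC_eq, smul_smul, actT_smul]
  exact h1

theorem locRing_le_actT [Infinite k] (f : Ix N d → k)
    (A : Matrix (Fin (N + 1)) (Fin (N + 1)) k) (hA : A.det ≠ 0) :
    locRing f ≤ locRing (actT A f) := by
  have hu : IsUnit A.det := isUnit_iff_ne_zero.mpr hA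
  have hA' : A⁻¹.det ≠ 0 := by
    rw [Matrix.det_nonsing_inv]
    exact (hu.ringInverse).ne_zero
  rintro h ⟨P, Q, hQ, hPQ, hh⟩
  refine ⟨compT A⁻¹ P, compT A⁻¹ Q, ?_, hPQ.comp A hA, ?_⟩
  · rw [eval_compT, actT_actT, Matrix.mul_nonsing_inv _ hu, actT_one]
    exact hQ
  · have h1 : P * compT A⁻¹ Q = compT A⁻¹ P * Q := by
      apply MvPolynomial.funext
      intro c
      rw [map_mul, map_mul, eval_compT, eval_compT]
      have := hPQ.gl A⁻¹ hA' c
      exact this.symm
    have h2 := congrArg (inc k N d) h1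
    rw [map_mul, map_mul] at h2
    have hQ0 := inc_ne (ne_of_eval hQ)
    apply mul_right_cancel₀ hQ0
    have h3 : h * inc k N d Q = inc k N d P := hh
    change h * inc k N d (compT A⁻¹ Q) * inc k N d Q = inc k N d (compT A⁻¹ P) * inc k N d Q
    rw [← h2, ← h3]
    ring

/-- The local ring only depends on the orbit. -/
theorem locRing_actT [Infinite k] (f : Ix N d → k)
    (A : Matrix (Fin (N + 1)) (Fin (N + 1)) k) (hA : A.det ≠ 0) :
    locRing (actT A f) = locRing f := by
  have hu : IsUnit A.det := isUnit_iff_ne_zero.mpr hA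
  have hA' : A⁻¹.det ≠ 0 := by
    rw [Matrix.det_nonsing_inv]
    exact (hu.ringInverse).ne_zero
  apply le_antisymm _ (locRing_le_actT f A hA)
  have h1 := locRing_le_actT (actT A f) A⁻¹ hA'
  rwa [actT_actT, Matrix.mul_nonsing_inv _ hu, actT_one] at h1

/-- the inclusion -/
def iota (f : Ix N d → k) : locRing f →ₐ[k] regRing f := Subalgebra.inclusion (locRing_le f)

theorem isUnit_of_ev {f : Ix N d → k} {x : locRing f} (hx : ev f (iota f x) ≠ 0) : IsUnit x := by
  obtain ⟨P, Q, hQ, hPQ, hh⟩ := x.2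
  have hh' : x.1 * inc k N d Q = inc k N d P := hh
  have h1 := ev_quot f (iota f x) hh
  have hP : eval f P ≠ 0 := by
    rw [← h1]
    exact mul_ne_zero hx hQ
  have hP0 := inc_ne (ne_of_eval hP)
  refine IsUnit.of_mul_eq_one ⟨inc k N d Q * (inc k N d P)⁻¹, Q, P, hP, hPQ.symm, ?_⟩ ?_
  · change inc k N d Q * (inc k N d P)⁻¹ * inc k N d P = inc k N d Q
    rw [mul_assoc, inv_mul_cancel₀ hP0, mul_one]
  · apply Subtype.ext
    change x.1 * (inc k N d Q * (inc k N d P)⁻¹) = 1
    rw [← mul_assoc, hh', mul_inv_cancel₀ hP0]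

theorem isUnit_iff_ev {f : Ix N d → k} (x : locRing f) : IsUnit x ↔ ev f (iota f x) ≠ 0 := by
  refine ⟨fun hu => ?_, isUnit_of_ev⟩
  exact ((hu.map (iota f)).map (ev f)).ne_zero

instance locLocal (f : Ix N d → k) : IsLocalRing (locRing f) := by
  apply IsLocalRing.of_isUnit_or_isUnit_one_sub_self
  intro x
  by_cases hx : ev f (iota f x) = 0
  · right
    rw [isUnit_iff_ev, map_sub, map_sub, map_one, map_one, hx, sub_zero]
    exact one_ne_zero
  · left
    exact isUnit_of_ev hx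

theorem mem_maxLoc (f : Ix N d → k) (x : locRing f) :
    x ∈ IsLocalRing.maximalIdeal (locRing f) ↔ ev f (iota f x) = 0 := by
  rw [IsLocalRing.mem_maximalIdeal, mem_nonunits_iff, isUnit_iff_ev, not_not]

theorem iota_max (f : Ix N d → k) (x : locRing f)
    (hx : x ∈ IsLocalRing.maximalIdeal (locRing f)) :
    iota f x ∈ IsLocalRing.maximalIdeal (regRing f) := by
  rw [mem_max_iff]
  exact (mem_maxLoc f x).mp hx

theorem residue (f : Ix N d → k) (x : locRing f) :
    ∃ a : k, x - algebraMap k (locRing f) a ∈ IsLocalRing.maximalIdeal (locRing f) := by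
  refine ⟨ev f (iota f x), ?_⟩
  rw [mem_maxLoc, map_sub, map_sub, AlgHom.commutes, ev_const, sub_self]

/-- Generators of the maximal ideal of a regular local ring of dimension at most `n`. -/
theorem gens_of_regular {R : Type} [CommRing R] [IsRegularLocalRing R] {n : ℕ}
    (hn : ringKrullDim R ≤ (n : WithBot ℕ∞)) :
    ∃ h : Fin n → R, IsLocalRing.maximalIdeal R = Ideal.span (Set.range h) := by
  have hfg : (IsLocalRing.maximalIdeal R).FG := IsNoetherian.noetherian _
  have h1 := IsRegularLocalRing.spanFinrank_maximalIdeal (R := R)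
  rw [← h1] at hn
  have hn' : (IsLocalRing.maximalIdeal R).spanFinrank ≤ n := by exact_mod_cast hn
  obtain ⟨s, hs1, hs2⟩ := Submodule.FG.exists_span_finset_card_eq_spanFinrank hfg
  rw [← hs1] at hn'
  obtain ⟨e⟩ : Nonempty (Fin s.card ≃ s) := ⟨s.equivFin.symm⟩
  refine ⟨fun i => if hi : i.1 < s.card then (e ⟨i.1, hi⟩ : R) else 0, ?_⟩
  apply le_antisymm
  · rw [← hs2]
    apply Ideal.span_le.mpr
    intro x hx
    apply Ideal.subset_span
    refine ⟨⟨(e.symm ⟨x, hx⟩).1, lt_of_lt_of_le (e.symm ⟨x, hx⟩).2 hn'⟩, ?_⟩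
    simp
  · apply Ideal.span_le.mpr
    rintro _ ⟨i, rfl⟩
    dsimp only
    split_ifs with hi
    · have hm : ((e ⟨i.1, hi⟩ : s) : R) ∈ IsLocalRing.maximalIdeal R := by
        rw [← hs2]
        exact Ideal.subset_span (e ⟨i.1, hi⟩).2
      exact hm
    · exact Ideal.zero_mem _

end

end Pool.Agent.Q55.SM
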