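import Pool.Agent.Q55.SM.Defs

/-!
Statements of the lemmas of project SM (singular points of the moduli space `M_d^N`), each with a
complete proof on paper.  Lemma jobs: prove `theorem xxx : S_YYY`.
-/

open MvPolynomial

namespace Pool.Agent.Q55.SM

open Pool.Agent.Helper819.Dyn Pool.Agent.Helper819.Apolar

/-- **SM-Q** (pure combinatorics).  Let `n = N + 1 ≥ 3`, `d ≥ 2`, `l : Fin n → k` with nonzero,
not all equal entries.  The number of pairs `(i, α)` (`i < n`, `α` a monomial of degree `d` in `n`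
variables) with `l^α ≠ l i` is at least the number of pairs `(i, j)` with `l i ≠ l j` plus `2`.

PROOF.  For `μ : k` let `b μ` be the number of monomials `q` of degree `2` in `n` variables with
`l^q ≠ μ`.

(1) For every `i`: the number of `α` of degree `d` with `l^α ≠ l i` is at least
`b (l i / l 0 ^ (d - 2))`: the map `q ↦ X_0^(d-2) q` is injective.

(2) `b μ ≥ n - 1` for every `μ`: choose `a, b` with `l a ≠ l b`.  For `j ≠ a, b` at least one of
`X_j X_a`, `X_j X_b` is bad (has `l^q ≠ μ`), as `l j * l a ≠ l j * l b`; also at least one of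
`X_a X_b`, `X_a ^ 2` is bad.  These `n - 1` bad monomials are different (for `j ≠ a, b` the
monomial determines `j`): the map `j ↦ (X_j X_a if it is bad, else X_j X_b)` for `j ≠ a, b`, and
`a ↦ X_a^2` or `X_a X_b`, is injective on `univ \ {b}`.

(3) If all `l i` are different then `b μ ≥ n`: for every `j` at most one `a` has
`l j * l a = μ`, so at most `n` of the `n (n + 1) / 2` monomials of degree `2` are good (send the
good monomial `X_j X_a`, `j ≤ a`, to `j`: injective), and `n (n + 1) / 2 - n = n (n - 1) / 2 ≥ n`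
as `n ≥ 3`.

(4) Conclusion.  Let `c i` be the number of `j` with `l j ≠ l i`, so `c i ≤ n - 1` and
`(off l).card = ∑ c i`.  By (1), `(bad l).card ≥ ∑_i b (μ_i)`.  If all `l i` are different:
`∑ b ≥ n * n ≥ n (n - 1) + 2 ≥ ∑ c i + 2`.  If not, `l i0 = l j0` for some `i0 ≠ j0`, so
`c i0 ≤ n - 2` and `c j0 ≤ n - 2` and `∑ c i ≤ n (n - 1) - 2`, while `∑ b ≥ n (n - 1)` by (2).

Monomials: `Ix N d = Fin (N + 1) × Ex N d`, `Ex N d` is the subtype of the Finset
`Finset.finsuppAntidiag univ d` of `Fin (N + 1) →₀ ℕ`; `Pool.Agent.Helper819.Dyn.mem_Ex`: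
membership iff `α.degree = d`. -/
def S_Q : Prop :=
  ∀ {k : Type} [Field k] {N d : ℕ} (_ : 2 ≤ N) (_ : 2 ≤ d) (l : Fin (N + 1) → k)
    (_ : ∀ i, l i ≠ 0) (_ : ∃ i j, l i ≠ l j), (off l).card + 2 ≤ (bad (d := d) l).card

/-- **SM-DIAG**.  A map with a nontrivial automorphism is conjugate to a map in diagonal form: a
coefficient vector whose entries at `(i, α)` vanish unless `l^α = l i`.

PROOF.  Let `actT B f = c • f`, `F = tup f`, i.e. `adj(B) F(B x) = c F(x)` for all `x`
(`eval_act_vec`, `tup_actT`), so `F(B x) = c' B F(x)` with `c' = c / det B`; `c ≠ 0`, since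
`F(B x) = 0` for all `x` would contradict `NZ (tup f)` (`B` invertible).
Write `T` for the endomorphism `x ↦ B x` of `k^(N+1)`.
(1) `T` is diagonalisable.  Apply `Pool.Agent.Helper819.Dyn.no_growth` (file LieInj) and
`iSup_eigen`.  To check the hypothesis of `no_growth`: let `(T - μ)^(M+1) x = 0`,
`(T - μ)^M x ≠ 0`.  Then `μ ≠ 0` (T is invertible) and
`T^t x = ∑_{j ≤ M} binom(t, j) μ^(t-j) (T - μ)^j x` for all `t : ℕ`.  By homogeneity
`F(T^t x) = μ^(d t) R(t)` where `R(t) = F(∑_j binom(t,j) μ^(-j) (T - μ)^j x)` is a vector of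
polynomials in `t` of degree `≤ d M`, whose coefficient of `t^(dM)` is
`F(μ^(-M) (T-μ)^M x) / (M!)^d ≠ 0` (some coordinate is nonzero, as `NZ`).  On the other hand
`F(T^t x) = c'^t T^t y` with `y = F(x)`.  So `T^t y = (μ^d / c')^t R(t)`.  With `μ' = μ^d / c'`:
`(T - μ')^s y = ∑_t binom(s,t) (-μ')^(s-t) T^t y = μ'^s ∑_t (-1)^(s-t) binom(s,t) R(t)
= μ'^s (Δ^s R)(0)`, which is `0` for `s = d M + 1` and `μ'^s (dM)! (leading coefficient) ≠ 0`
for `s = d M` (Mathlib: finite differences, `Polynomial`/`fwdDiff`, e.g.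
`fwdDiff_iter_eq_sum_shift`, `fwdDiff_iter_pow_eq_zero_of_lt`, `fwdDiff_iter_pow_eq_factorial`;
or any other way).
(2) So there is an invertible matrix `A` whose columns are eigenvectors: `B A = A Λ`,
`Λ = diagonal l'`, `l' i ≠ 0`.  `l'` is not constant, otherwise `B` is scalar.
(3) `f' = actT A f` satisfies `actT Λ f' = actT (A Λ) f = actT (B A) f = actT A (actT B f)
= c • f'` (`actT_actT`: `actT B (actT A c) = actT (A * B) c`).
(4) `actT (diagonal l') f' (i, α) = (det Λ / l' i) (∏ l' j ^ α j) f' (i, α)` (adjugate of a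
diagonal matrix).  Hence `(det Λ / c) l'^α f'(i,α) = l' i f'(i,α)`.  Choose `s ≠ 0` with
`s^(d-1) = det Λ / c` (`IsAlgClosed.exists_pow_nat_eq`, `d - 1 ≥ 1`) and `l = s • l'`: then
`l^α f'(i,α) = s^d l'^α f'(i,α) = s (det Λ / c) l'^α f'(i,α) = s l' i f'(i,α) = l i f'(i,α)`,
so `f'(i,α) = 0` if `(i,α) ∈ bad l`. -/
def S_Diag : Prop :=
  ∀ {k : Type} [Field k] [IsAlgClosed k] [CharZero k] {N d : ℕ} (_ : 2 ≤ d) (f : Ix N d → k)
    (_ : NZ (tup f)) (_ : HasAut f), ∃ A : Matrix (Fin (N + 1)) (Fin (N + 1)) k, A.det ≠ 0 ∧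
      ∃ l : Fin (N + 1) → k, (∀ i, l i ≠ 0) ∧ (∃ i j, l i ≠ l j) ∧
        ∀ p ∈ bad (d := d) l, actT A f p = 0

/-- **SM-GEN**.  An irreducible hypersurface through a nondegenerate point contains, in every
neighbourhood of this point, a map without nontrivial automorphisms.  Take `S_Q` and `S_Diag` as
hypotheses: `theorem gen (h1 : S_Q) (h2 : S_Diag) : S_Gen`.

PROOF.  Let `V = k^(Ix N d)`, `m = card (Ix N d)`, `SS = k[V]` (`SS k N d` of Helper819).  Suppose
every `x` with `J(x) = 0`, `b(x) ≠ 0` has `HasAut x`.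
For a nonconstant `l` with nonzero entries let `S_l = {s | s p = 0 for p ∈ bad l}`.
(1) Every such `x` is `actT C s` with `det C ≠ 0`, `s ∈ S_l` for some `l` (from `S_Diag`:
`s = actT A x`, `C = A⁻¹`, `actT_actT`, `actT_one`).
(2) Let `R_l = MvPolynomial (off l ⊕ (bad l)ᶜ) k` and let `ψ_l : SS →ₐ R_l` be
`aeval (actT (1 + Y) s)` where `Y` is the generic matrix supported on `off l` and `s` the generic
vector of `S_l` (entries: variables).  For `P ∈ ker ψ_l`: `P(actT (1+Y) s) = 0` for all matrices
`Y` over `k` supported on `off l` and all `s ∈ S_l` (`map_actT`).  CLAIM: then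
`P(actT C s) = 0` for ALL matrices `C` and `s ∈ S_l`.  Let `c(C)` be the matrix with entries
`C i j` if `l i = l j` and `0` otherwise.  If `det c(C) ≠ 0` then, as `c(C)` commutes with
`diagonal l`, `s' = actT (c C) s ∈ S_l` (`S_l` is the set of `s` with
`actT (diagonal l) s = det(diagonal l) • s`, because `actT (diagonal l) s (i, α) =
(∏ l / l i) l^α s(i, α)`), and `(c C)⁻¹ * C = 1 + Y` with `Y` supported on `off l` (blockwise; `c`
is multiplicative on products with block diagonal matrices: `c(D C) = D c(C)`), so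
`actT C s = actT ((c C) * ((c C)⁻¹ C)) s = actT (1 + Y) s'` and `P` vanishes there.
The polynomial `aeval (orb s) P` in the entries of `C` (`eval_aeval_orb`) times the nonzero
polynomial `det c(X)` (value `1` at `C = 1`) vanishes identically, so `aeval (orb s) P = 0`.
(3) Only finitely many pairs `(off l, bad l)` of finite sets occur, and `ψ_l`, `S_l` depend only on
this pair.  Suppose for each pair there is `P ∈ ker ψ_l` with `¬ J ∣ P`.  Let `Π` be the product
of these finitely many `P`.  By (1), (2) the polynomial `Π * b` vanishes on the zero set of `J`.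
Nullstellensatz (`MvPolynomial.vanishingIdeal_zeroLocus_eq_radical`, `J` is prime): `J ∣ Π * b`.
But `¬ J ∣ b` since `J(f) = 0 ≠ b(f)`, and `¬ J ∣ P` for all factors: contradiction.
So for some `l`: `ker ψ_l ⊆ (J)`.
(4) Dimension.  `SS / (J)` has Krull dimension `≥ m - 1`
(`MvPolynomial.ringKrullDim_of_isNoetherianRing`; every `ringKrullDim R ≤ ringKrullDim (R/(J)) + 1`
statement of `Mathlib/RingTheory/Ideal/KrullsHeightTheorem.lean` is for the Jacobson radical /
local rings: localise at the maximal ideal of `f`, which has height `m`, or use a Noether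
normalisation, or any other way: e.g. transcendence degree of `SS/(J)` is `m - 1`, since one
variable occurs in `J` and the other variables are algebraically independent modulo `J`; then a
transcendence basis argument replaces the chain below).  A chain of primes of length `m - 1`
above `(J) ⊇ ker ψ_l` gives `m - 1 ≤ card (off l) + (m - card (bad l))` by
`Pool.Agent.Helper819.Zar.chain_length_le`; but `S_Q` says `card (off l) + 2 ≤ card (bad l)`.
(Alternative to the chain: the `m - 1` variables other than one occurring in `J` are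
algebraically independent modulo `(J)`, hence modulo `ker ψ_l`, so their images in `R_l` are
`m - 1` algebraically independent polynomials in `card (off l) + m - card (bad l) ≤ m - 2`
variables, impossible by transcendence degree.) -/
def S_Gen : Prop :=
  ∀ {k : Type} [Field k] [IsAlgClosed k] [CharZero k] {N d : ℕ} (_ : 2 ≤ N) (_ : 2 ≤ d)
    (J b : MvPolynomial (Ix N d) k) (f : Ix N d → k) (_ : Irreducible J) (_ : eval f J = 0)
    (_ : eval f b ≠ 0) (_ : ∀ c : Ix N d → k, eval c b ≠ 0 → NZ (tup c)),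
    ∃ x : Ix N d → k, eval x J = 0 ∧ eval x b ≠ 0 ∧ ¬ HasAut x

/-- **SM-DIM**.  The local ring of `M_d^N` at `[f]` has Krull dimension at most
`card (Ix N d) - (N + 1)^2`.

PROOF.  Let `m = card (Ix N d)`, `T = {xi Y f | Y}` (`xi`, `xiL` in `Helper819/Lie.lean`); the map
`Y ↦ xi Y f` is injective by `lie_inj` (`tup_xi`, `lieT`), so `dim T = (N+1)^2`.  Choose
`v_1, …, v_n`, `n = m - (N+1)^2`, spanning a complement of `T` in `k^(Ix N d)`.  Let
`res : MvPolynomial (Ix N d) k →ₐ MvPolynomial (Fin n) k`, `P ↦ P(f + ∑ y_j v_j)`.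
(1) CLAIM.  Let `InvQuot P Q`, `Q(f) ≠ 0`, `res P = 0`.  Then `P = 0`.  First, taking `t = det φ`
in `InvQuot` (`conj φ F = (det φ)⁻¹ act φ F`) gives
`P(actT A c) Q(c) = P(c) Q(actT A c)` for all `c` and all invertible `A`; hence as an identity of
polynomials in the entries of `A` and `c`, and so over every commutative `k`-algebra.  Apply it
over `k[t]` to `A = 1 + t Y`, `c = f + t v` with `v` in the span of the `v_j`:
`P(c) = 0` since `res P = 0`, and `Q(c) ≠ 0` (constant term `Q(f)`), so
`P(actT (1 + tY) (f + t v)) = 0` in `k[t]`.  Now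
`actT (1 + tY) (f + tv) = f + t (v + xi Y f) + O(t^2)` (`actT_eps'` modulo `t^2`).  If `P ≠ 0`,
let `j` be the smallest degree of a nonzero homogeneous component `L` of `P(f + ·)`; the
coefficient of `t^j` of `P(f + t w + O(t^2))` is `L(w)`.  So `L(v + xi Y f) = 0` for all `v`, `Y`,
i.e. `L = 0` as a function on `k^(Ix N d)`: contradiction.
(2) So `P/Q ↦ res P / res Q` is a well defined injective ring homomorphism from `locRing f` to
`K = FractionRing (MvPolynomial (Fin n) k)`; (`res Q ≠ 0` since `Q(f) ≠ 0`).  (For example: the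
ring of all `h` regular at `f`, a localisation of `MvPolynomial (Ix N d) k`, maps to `K`.)
(3) Let `P_0 < … < P_l` be a chain of primes of `locRing f` (a `k`-algebra: constants are
invariant).  `Pool.Agent.Helper819.Zar.exists_indep` gives `l` elements of `locRing f` which are
algebraically independent over `k`, so their images in `K` are, and `l ≤ n` as
`Algebra.trdeg k K = n`.  Hence `ringKrullDim (locRing f) ≤ n`. -/
def S_Dim : Prop :=
  ∀ {k : Type} [Field k] [IsAlgClosed k] [CharZero k] {N d : ℕ} (_ : 2 ≤ d) (f : Ix N d → k)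
    (_ : NZ (tup f)),
    ringKrullDim (locRing f) ≤ ((Fintype.card (Ix N d) - (N + 1) ^ 2 : ℕ) : WithBot ℕ∞)

/-- **SM-DET** (pure commutative algebra).  Let `R` be a local ring with residue field `k` whose
maximal ideal is generated by `h 1, …, h n`, `ι : R → O` a local homomorphism to a Noetherian local
ring and `D 1, …, D n` derivations of `O`.  For all `g 1, …, g n ∈ R` the determinant of
`D j (g i)` is a multiple of the determinant of `D j (h i)`.

PROOF.  Let `𝔪`, `𝔫` be the maximal ideals of `R`, `O`.  By induction on `s` every `g ∈ R` is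
`G(h 1, …, h n) + ρ` with `G : MvPolynomial (Fin n) k` and `ρ ∈ 𝔪^s` (`R = k + 𝔪`, and
`𝔪^s` is spanned by monomials of degree `s` in `h` with coefficients in `R = k + 𝔪`).  Then
`D j (ι g) = ∑ i, ι((∂_i G)(h)) D j (ι (h i)) + D j (ι ρ)` and `D j (ι ρ) ∈ 𝔫^(s-1)`, because
`ι 𝔪 ⊆ 𝔫` and a derivation maps `𝔫^s` to `𝔫^(s-1)` (Leibniz rule).  So the matrix
`(D j (ι (g i)))` is `C * H + E`, `H = (D j (ι (h i)))`, all entries of `E` in `𝔫^(s-1)`, and its
determinant is congruent to `det C * det H` modulo `𝔫^(s-1)`.  So it lies in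
`(det H) + 𝔫^s` for all `s`, hence in `(det H)` by Krull's intersection theorem for the Noetherian
local ring `O / (det H)` (if this is the zero ring there is nothing to prove). -/
def S_Det : Prop :=
  ∀ {k R O : Type} [Field k] [CommRing R] [IsLocalRing R] [CommRing O] [IsLocalRing O]
    [IsNoetherianRing O] [Algebra k R] [Algebra k O] (ι : R →ₐ[k] O)
    (_ : ∀ x ∈ IsLocalRing.maximalIdeal R, ι x ∈ IsLocalRing.maximalIdeal O)
    (_ : ∀ x : R, ∃ a : k, x - algebraMap k R a ∈ IsLocalRing.maximalIdeal R)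
    {n : ℕ} (D : Fin n → Derivation k O O) (h : Fin n → R)
    (_ : IsLocalRing.maximalIdeal R = Ideal.span (Set.range h)) (g : Fin n → R),
    (Matrix.of fun i j => D j (ι (g i))).det ∈
      Ideal.span {(Matrix.of fun i j => D j (ι (h i))).det}

/-- **SM-TAN**.  For a map in diagonal form with nonconstant `l` there is a direction `v` which is
not tangent to the orbit and in which the derivatives of all invariant rational functions vanish.
Take `S_Q` as hypothesis: `theorem tan (h1 : S_Q) : S_Tan`.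
(`dd P f v` is the derivative of `P` at `f` in the direction `v`, file Helper819/Tan.)

PROOF.  Let `Λ = diagonal l`; `actT Λ s (i, α) = (∏_{j ≠ i} l j) (∏_j l j ^ α j) s (i, α)`
(adjugate of a diagonal matrix), so `s` vanishes on `bad l` iff `actT Λ s = det Λ • s`.
(1) If `Y i j = 0` whenever `l i ≠ l j` then `xi Y f` vanishes on `bad l`: `Y` commutes with `Λ`,
so over the dual numbers `k[e]`: `actT Λ (actT (1 + eY) f) = actT ((1 + e Y) Λ) f =
actT (Λ (1 + eY)) f = actT (1 + eY) (actT Λ f) = det Λ • actT (1 + eY) f`, and `actT_eps` (take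
the coefficient of `e`): `actT Λ (xi Y f) = det Λ • xi Y f`.
(2) There is `p ∈ bad l` such that `Pi.single p 1` is not of the form `xi Y f`: otherwise
the linear map `Y ↦ (xi Y f restricted to bad l)` is onto `k^(bad l)`; by (1) it factors through
`Y ↦ (Y i j)_{(i,j) ∈ off l}`, so `card (bad l) ≤ card (off l)`, contradicting `S_Q`.
(3) Let `v = Pi.single p 1`, `μ = (∏ l^α) / l i ≠ 1` for `p = (i, α)`.  Let
`θ s = (det Λ)⁻¹ • actT Λ s`, i.e. `θ s (i, α) = (l^α / l i) s (i, α)`; `θ f = f`, `θ v = μ v`.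
`InvQuot` with `φ = Λ`, `t = 1` (`conj φ F = (det φ)⁻¹ act φ F`) says
`P(θ c) Q(c) = P(c) Q(θ c)` for all `c`.  Take `c = f + e v` over the dual numbers (the identity
holds for polynomials) or differentiate `t ↦ f + t v` at `0`:
`μ dP Q(f) + P(f) dQ = dP Q(f) + P(f) μ dQ` with `dP = dd P f v`, `dQ = dd Q f v`, so
`(μ - 1)(dP Q(f) - P(f) dQ) = 0`. -/
def S_Tan : Prop :=
  ∀ {k : Type} [Field k] [IsAlgClosed k] [CharZero k] {N d : ℕ} (_ : 2 ≤ N) (_ : 2 ≤ d)
    (f : Ix N d → k) (l : Fin (N + 1) → k) (_ : ∀ i, l i ≠ 0) (_ : ∃ i j, l i ≠ l j)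
    (_ : ∀ p ∈ bad (d := d) l, f p = 0),
    ∃ v : Ix N d → k, (∀ Y : Matrix (Fin (N + 1)) (Fin (N + 1)) k, xi Y f ≠ v) ∧
      ∀ P Q : MvPolynomial (Ix N d) k, InvQuot P Q →
        dd P f v * eval f Q = eval f P * dd Q f v

end Pool.Agent.Q55.SM
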