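import Pool.Agent.Q55.SM.Nor
import Pool.Agent.Q55.SM.Stm

/-!
Assembly: points with automorphisms are singular.
-/

open MvPolynomial

namespace Pool.Agent.Q55.SM

open Pool.Agent.Helper819.Dyn Pool.Agent.Helper819.Apolar

noncomputable section

set_option linter.unusedSectionVars false

variable {k : Type} [Field k] {N d : ℕ}

theorem exists_factor (f : Ix N d → k) (P : MvPolynomial (Ix N d) k) (hP : P ≠ 0)
    (h0 : eval f P = 0) : ∃ J : MvPolynomial (Ix N d) k, Irreducible J ∧ J ∣ P ∧ eval f J = 0 := by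
  revert hP h0
  refine WfDvdMonoid.induction_on_irreducible (motive := fun P => P ≠ 0 → eval f P = 0 →
    ∃ J : MvPolynomial (Ix N d) k, Irreducible J ∧ J ∣ P ∧ eval f J = 0) P ?_ ?_ ?_
  · intro h
    exact absurd rfl h
  · intro u hu _ h0
    exact absurd h0 (hu.map (eval f)).ne_zero
  · intro a i ha hi ih _ h0
    rw [map_mul] at h0
    rcases mul_eq_zero.mp h0 with h1 | h1
    · exact ⟨i, hi, Dvd.intro _ rfl, h1⟩
    · obtain ⟨J, hJ1, hJ2, hJ3⟩ := ih ha h1
      exact ⟨J, hJ1, hJ2.mul_left i, hJ3⟩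

theorem dd_add (P : MvPolynomial (Ix N d) k) (c u v : Ix N d → k) :
    dd P c (u + v) = dd P c u + dd P c v := by
  unfold dd
  rw [← Finset.sum_add_distrib]
  exact Finset.sum_congr rfl fun p _ => by rw [Pi.add_apply, add_mul]

theorem dd_sum_smul {n : ℕ} (P : MvPolynomial (Ix N d) k) (c : Ix N d → k)
    (w : Fin n → k) (v : Fin n → (Ix N d → k)) :
    dd P c (∑ j, w j • v j) = ∑ j, w j * dd P c (v j) := by
  unfold dd
  simp only [Finset.mul_sum]
  rw [Finset.sum_comm]
  refine Finset.sum_congr rfl fun p _ => ?_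
  rw [Finset.sum_apply, Finset.sum_mul]
  refine Finset.sum_congr rfl fun j _ => ?_
  rw [Pi.smul_apply, smul_eq_mul, mul_assoc]

/-- value of a derivative -/
theorem ev_derR (f u : Ix N d → k) (x : regRing f) {P Q : MvPolynomial (Ix N d) k}
    (hx : x.1 * inc k N d Q = inc k N d P) :
    ev f (derR f u x) * (eval f Q * eval f Q) = dd P f u * eval f Q - eval f P * dd Q f u := by
  have h1 := ev_quot f (derR f u x) (der_quot u hx)
  rw [map_mul, map_sub, map_mul, map_mul, eval_pd, eval_pd] at h1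
  exact h1

/-- The Jacobian of invariant functions vanishes at a point with automorphisms. -/
theorem jac_zero {f : Ix N d → k} {n : ℕ} {v : Fin n → (Ix N d → k)} [Infinite k]
    (hv2 : ∀ u : Ix N d → k, ∃ (Y : Matrix (Fin (N + 1)) (Fin (N + 1)) k) (w : Fin n → k),
      u = xi Y f + ∑ j, w j • v j)
    {v0 : Ix N d → k} (hv0 : ∀ Y : Matrix (Fin (N + 1)) (Fin (N + 1)) k, xi Y f ≠ v0)
    (hv0' : ∀ P Q : MvPolynomial (Ix N d) k, InvQuot P Q →
        dd P f v0 * eval f Q = eval f P * dd Q f v0)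
    (h : Fin n → locRing f) :
    ev f (Matrix.of fun i j => derR f (v j) (iota f (h i))).det = 0 := by
  classical
  obtain ⟨Y, w, hw⟩ := hv2 v0
  have hw0 : w ≠ 0 := by
    rintro rfl
    apply hv0 Y
    rw [hw]
    simp
  rw [RingHom.map_det]
  apply Matrix.exists_mulVec_eq_zero_iff.mp
  refine ⟨w, hw0, ?_⟩
  funext i
  obtain ⟨P, Q, hQ, hPQ, hh⟩ := (h i).2
  have hh' : (iota f (h i)).1 * inc k N d Q = inc k N d P := hh
  have h1 := hPQ.tangent Y f
  have h2 := hv0' P Q hPQ
  rw [hw, dd_add, dd_add, dd_sum_smul, dd_sum_smul] at h2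
  have h3 : (∑ j, w j * dd P f (v j)) * eval f Q = eval f P * ∑ j, w j * dd Q f (v j) := by
    linear_combination h2 - h1
  have h4 : (∑ j, ev f (derR f (v j) (iota f (h i))) * w j) * (eval f Q * eval f Q) = 0 := by
    rw [Finset.sum_mul]
    have h5 : ∀ j, ev f (derR f (v j) (iota f (h i))) * w j * (eval f Q * eval f Q) =
        (w j * dd P f (v j)) * eval f Q - eval f P * (w j * dd Q f (v j)) := by
      intro j
      have := ev_derR f (v j) (iota f (h i)) hh'
      linear_combination w j * this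
    rw [Finset.sum_congr rfl fun j _ => h5 j, Finset.sum_sub_distrib, ← Finset.sum_mul,
      ← Finset.mul_sum, h3, sub_self]
  have h6 := (mul_eq_zero.mp h4).resolve_right (mul_ne_zero hQ hQ)
  exact h6

/-- The maximal ideal of the local ring of a diagonal map with automorphisms is not generated by
`mdim N d` elements. -/
theorem main_diag [IsAlgClosed k] [CharZero k] (hGen : S_Gen) (hDet : S_Det) (hTan : S_Tan)
    (hN : 2 ≤ N) (hd : 2 ≤ d) {f : Ix N d → k} (hf : NZ (tup f)) (l : Fin (N + 1) → k)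
    (hl : ∀ i, l i ≠ 0) (hl2 : ∃ i j, l i ≠ l j) (hfl : ∀ p ∈ bad (d := d) l, f p = 0)
    (h : Fin (mdim N d) → locRing f)
    (hh : IsLocalRing.maximalIdeal (locRing f) = Ideal.span (Set.range h)) : False := by
  classical
  obtain ⟨hcard, v, hv1, hv2⟩ := exists_normal hd hf
  obtain ⟨e⟩ : Nonempty (Ix N d ≃ Sg N d) := by
    refine ⟨Fintype.equivOfCardEq ?_⟩
    rw [hcard]
    simp
  obtain ⟨w, D, hD, hDf, hDNZ⟩ := exists_semi_NZ hd hf
  obtain ⟨v0, hv0, hv0'⟩ := hTan hN hd f l hl hl2 hfl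
  have hJH := jac_zero hv2 hv0 hv0' h
  obtain ⟨JH, hJHdef⟩ : ∃ JH : regRing f,
    JH = (Matrix.of fun i j => derR f (v j) (iota f (h i))).det := ⟨_, rfl⟩
  rw [← hJHdef] at hJH
  obtain ⟨PH, QH, hQH, hPQH⟩ := JH.2
  have hPH : eval f PH = 0 := by
    rw [← ev_quot f JH hPQH, hJH, zero_mul]
  -- an irreducible hypersurface
  obtain ⟨J0, hJirr, hJdvd, hJ0⟩ : ∃ J : MvPolynomial (Ix N d) k, Irreducible J ∧ J ∣ PH ∧
      eval f J = 0 := by
    by_cases hP0 : PH = 0
    · have p0 : Ix N d := e.symm (Sum.inl (0, 0))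
      have hne : (X p0 - C (f p0) : MvPolynomial (Ix N d) k) ≠ 0 := by
        intro h0
        have h1 := congrArg (eval fun _ => f p0 + 1) h0
        rw [map_sub, eval_X, eval_C, map_zero] at h1
        simp at h1
      obtain ⟨J, hJ1, _, hJ3⟩ := exists_factor f _ hne (by rw [map_sub, eval_X, eval_C, sub_self])
      exact ⟨J, hJ1, by rw [hP0]; exact dvd_zero _, hJ3⟩
    · exact exists_factor f PH hP0 hPH
  have hprime : Prime J0 := hJirr.prime
  -- a point without automorphisms
  have hb : eval f (D * (Mg v e).det) ≠ 0 := by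
    rw [map_mul, eval_Mg]
    exact mul_ne_zero hDf (Mx_det_ne e hv1)
  obtain ⟨x0, hx1, hx2, hx3⟩ := hGen hN hd J0 (D * (Mg v e).det) f hJirr hJ0 hb (by
    intro c hc
    rw [map_mul] at hc
    exact hDNZ c (left_ne_zero_of_mul hc))
  rw [map_mul, eval_Mg] at hx2
  have hDx : eval x0 D ≠ 0 := left_ne_zero_of_mul hx2
  obtain ⟨η, hη1, hη2⟩ := exists_dual e (right_ne_zero_of_mul hx2)
  choose m q hq1 hq2 hq3 using fun j =>
    exists_semi_diff hd (hDNZ x0 hDx) hx3 hD hDNZ (η j) (hη1 j)
  have hDm : ∀ j, eval f (D ^ m j) ≠ 0 := fun j => by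
    rw [map_pow]
    exact pow_ne_zero _ hDf
  have hg : ∀ j, ∃ g : locRing f, g.1 * inc k N d (D ^ m j) = inc k N d (q j) := by
    intro j
    have h0 := inc_ne (ne_of_eval (hDm j))
    refine ⟨⟨inc k N d (q j) * (inc k N d (D ^ m j))⁻¹, q j, D ^ m j, hDm j, ?_, ?_⟩, ?_⟩
    · have h1 := hD.pow (m j)
      rw [mul_comm] at h1
      exact invQuot_of_semi (by omega) (hq1 j) h1
    · change inc k N d (q j) * (inc k N d (D ^ m j))⁻¹ * inc k N d (D ^ m j) = inc k N d (q j)
      rw [mul_assoc, inv_mul_cancel₀ h0, mul_one]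
    · change inc k N d (q j) * (inc k N d (D ^ m j))⁻¹ * inc k N d (D ^ m j) = inc k N d (q j)
      rw [mul_assoc, inv_mul_cancel₀ h0, mul_one]
  choose g hg using hg
  have hdet := hDet (iota f) (iota_max f) (residue f) (fun j => derR f (v j)) h hh g
  rw [← hJHdef, Ideal.mem_span_singleton'] at hdet
  obtain ⟨u, hu⟩ := hdet
  obtain ⟨U, QU, hQU, hPQU⟩ := u.2
  -- the polynomial matrix
  obtain ⟨E, hE⟩ : ∃ E : Fin (mdim N d) → MvPolynomial (Ix N d) k,
    E = fun i => D ^ m i * D ^ m i := ⟨_, rfl⟩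
  obtain ⟨a, ha⟩ : ∃ a : Matrix (Fin (mdim N d)) (Fin (mdim N d)) (MvPolynomial (Ix N d) k),
    a = Matrix.of fun i j => pd (v j) (q i) * D ^ m i - q i * pd (v j) (D ^ m i) := ⟨_, rfl⟩
  have h1 : inc k N d a.det = (∏ i, inc k N d (E i)) *
      (Matrix.of fun i j => der (v j) (g i).1).det := by
    rw [← Matrix.det_mul_column]
    have h2 : inc k N d a.det = (a.map (inc k N d)).det := by
      have := RingHom.map_det ((inc k N d : MvPolynomial (Ix N d) k →ₐ[k] RF k N d) :
        MvPolynomial (Ix N d) k →+* RF k N d) a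
      exact this
    rw [h2]
    congr 1
    ext i j
    rw [Matrix.map_apply, ha, Matrix.of_apply, Matrix.of_apply, Matrix.of_apply, hE]
    have h3 := der_quot (v j) (hg i)
    rw [← h3, mul_comm]
  have h2 : ((Matrix.of fun i j => derR f (v j) (iota f (g i))).det : regRing f).1 =
      (Matrix.of fun i j => der (v j) (g i).1).det := by
    have h3 := RingHom.map_det ((regRing f).val : regRing f →+* RF k N d)
      (Matrix.of fun i j => derR f (v j) (iota f (g i)))
    have h4 : ((regRing f).val : regRing f →+* RF k N d)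
      ((Matrix.of fun i j => derR f (v j) (iota f (g i))).det) =
        ((Matrix.of fun i j => derR f (v j) (iota f (g i))).det : regRing f).1 := rfl
    rw [← h4, h3]
    rfl
  have h3 := congrArg (Subtype.val) hu
  rw [h2] at h3
  have h3' : u.1 * JH.1 = (Matrix.of fun i j => der (v j) (g i).1).det := h3
  have h4 : a.det * QU * QH = (∏ i, E i) * U * PH := by
    apply inc_inj
    rw [map_mul, map_mul, h1, map_mul, map_mul, map_prod, ← h3', ← hPQU, ← hPQH]
    ring
  have h5 : J0 ∣ a.det * QU * QH := by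
    rw [h4]
    exact hJdvd.mul_left _
  have hnot : ∀ Q : MvPolynomial (Ix N d) k, eval f Q ≠ 0 → ¬ J0 ∣ Q := by
    rintro Q hQ ⟨R, rfl⟩
    apply hQ
    rw [map_mul, hJ0, zero_mul]
  have h6 : J0 ∣ a.det := by
    rcases hprime.dvd_or_dvd h5 with h7 | h7
    · rcases hprime.dvd_or_dvd h7 with h8 | h8
      · exact h8
      · exact absurd h8 (hnot QU hQU)
    · exact absurd h7 (hnot QH hQH)
  have h7 : eval x0 a.det = 0 := by
    obtain ⟨R, hR⟩ := h6
    rw [hR, map_mul, hx1, zero_mul]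
  rw [RingHom.map_det] at h7
  have h8 : (eval x0).mapMatrix a = Matrix.diagonal fun i => eval x0 D ^ m i * eval x0 D ^ m i := by
    ext i j
    rw [RingHom.mapMatrix_apply, Matrix.map_apply, ha, Matrix.of_apply, map_sub, map_mul,
      map_mul, hq2, zero_mul, sub_zero, eval_pd, hq3, hη2, map_pow, Matrix.diagonal_apply]
    by_cases hij : i = j
    · rw [if_pos hij, if_pos hij.symm, mul_one]
    · rw [if_neg hij, if_neg (Ne.symm hij), mul_zero, zero_mul]
  rw [h8, Matrix.det_diagonal] at h7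
  obtain ⟨i, _, hi⟩ := Finset.prod_eq_zero_iff.mp h7
  exact mul_ne_zero (pow_ne_zero _ hDx) (pow_ne_zero _ hDx) hi

theorem transport {S T : Subalgebra k (RF k N d)} (hST : S = T) [IsLocalRing S] [IsLocalRing T]
    {n : ℕ} (hS : ∀ h : Fin n → S, IsLocalRing.maximalIdeal S ≠ Ideal.span (Set.range h))
    (h : Fin n → T) : IsLocalRing.maximalIdeal T ≠ Ideal.span (Set.range h) := by
  subst hST
  exact hS h

theorem NZ_actT {f : Ix N d → k} (hf : NZ (tup f)) (A : Matrix (Fin (N + 1)) (Fin (N + 1)) k)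
    (hA : A.det ≠ 0) : NZ (tup (actT A f)) := by
  rw [tup_actT]
  exact NZ_act hf A hA

/-- **Main theorem**, for coefficient vectors: the maximal ideal of the local ring at a point with
automorphisms is not generated by `mdim N d` elements. -/
theorem main_aut [IsAlgClosed k] [CharZero k] (hDiag : S_Diag) (hGen : S_Gen) (hDet : S_Det)
    (hTan : S_Tan) (hN : 2 ≤ N) (hd : 2 ≤ d) {f : Ix N d → k} (hf : NZ (tup f))
    (haut : HasAut f) (h : Fin (mdim N d) → locRing f) :
    IsLocalRing.maximalIdeal (locRing f) ≠ Ideal.span (Set.range h) := by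
  obtain ⟨A, hA, l, hl, hl2, hfl⟩ := hDiag hd f hf haut
  have hfA : NZ (tup (actT A f)) := NZ_actT hf A hA
  exact transport (locRing_actT f A hA)
    (fun h hh => main_diag hGen hDet hTan hN hd hfA l hl hl2 hfl h hh) h

/-- **Main theorem**, for coefficient vectors: points with automorphisms are singular. -/
theorem main_sing [IsAlgClosed k] [CharZero k] (hDiag : S_Diag) (hGen : S_Gen) (hDet : S_Det)
    (hTan : S_Tan) (hDim : S_Dim) (hN : 2 ≤ N) (hd : 2 ≤ d) {f : Ix N d → k} (hf : NZ (tup f))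
    (haut : HasAut f) : ¬ IsRegularLocalRing (locRing f) := by
  intro hreg
  obtain ⟨h, hh⟩ := gens_of_regular (R := locRing f) (hDim hd f hf)
  exact main_aut hDiag hGen hDet hTan hN hd hf haut h hh

end

end Pool.Agent.Q55.SM
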