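import Pool.Agent.Q55.SM.Loc

/-!
Complements of the tangent spaces of the orbits.
-/

open MvPolynomial

namespace Pool.Agent.Q55.SM

open Pool.Agent.Helper819.Dyn Pool.Agent.Helper819.Apolar

noncomputable section

set_option linter.unusedSectionVars false

variable {k : Type} [Field k] {N d : ℕ}

theorem xi_inj [IsAlgClosed k] [CharZero k] (hd : 2 ≤ d) {f : Ix N d → k} (hf : NZ (tup f))
    {Y : Matrix (Fin (N + 1)) (Fin (N + 1)) k} (hY : xi Y f = 0) : Y = 0 := by
  apply lie_inj hd hf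
  intro i
  have h1 : tup (xi Y f) = lieT Y (tup f) := tup_xi (by omega) Y f
  have h2 := congrFun h1 i
  rw [hY] at h2
  have h3 : tup (0 : Ix N d → k) i = 0 := by
    unfold tup
    simp
  rw [h3] at h2
  unfold lieT at h2
  linear_combination -h2

/-- A basis of a complement of the tangent space of the orbit. -/
theorem exists_normal [IsAlgClosed k] [CharZero k] (hd : 2 ≤ d) {f : Ix N d → k}
    (hf : NZ (tup f)) :
    Fintype.card (Ix N d) = (N + 1) * (N + 1) + mdim N d ∧
    ∃ v : Fin (mdim N d) → (Ix N d → k),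
      (∀ (Y : Matrix (Fin (N + 1)) (Fin (N + 1)) k) (w : Fin (mdim N d) → k),
        xi Y f + ∑ j, w j • v j = 0 → Y = 0 ∧ w = 0) ∧
      ∀ u : Ix N d → k, ∃ (Y : Matrix (Fin (N + 1)) (Fin (N + 1)) k) (w : Fin (mdim N d) → k),
        u = xi Y f + ∑ j, w j • v j := by
  have hinj : Function.Injective (xiL f) := by
    rw [← LinearMap.ker_eq_bot, LinearMap.ker_eq_bot']
    intro Y hY
    exact xi_inj hd hf hY
  have hr : Module.finrank k (LinearMap.range (xiL f)) = (N + 1) * (N + 1) := by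
    rw [LinearMap.finrank_range_of_inj hinj, Module.finrank_matrix]
    simp
  obtain ⟨W, hW⟩ := Submodule.exists_isCompl (LinearMap.range (xiL f))
  have hsum := Submodule.finrank_add_eq_of_isCompl hW
  rw [hr, Module.finrank_fintype_fun_eq_card] at hsum
  have hWn : Module.finrank k W = mdim N d := by
    unfold mdim
    rw [pow_two, ← hsum]
    omega
  refine ⟨by rw [← hsum, hWn], ?_⟩
  obtain b := Module.finBasisOfFinrankEq k W hWn
  refine ⟨fun j => (b j : Ix N d → k), ?_, ?_⟩
  · intro Y w h0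
    have h1 : (∑ j, w j • (b j : Ix N d → k)) = ((∑ j, w j • b j : W) : Ix N d → k) := by
      simp
    rw [h1] at h0
    have h2 : xi Y f ∈ W := by
      have : xi Y f = ((-(∑ j, w j • b j) : W) : Ix N d → k) := by
        rw [Submodule.coe_neg]
        exact eq_neg_of_add_eq_zero_left h0
      rw [this]
      exact Submodule.coe_mem _
    have h3 : xi Y f ∈ LinearMap.range (xiL f) := ⟨Y, rfl⟩
    have h4 : xi Y f = 0 := (Submodule.disjoint_def.mp hW.disjoint) _ h3 h2
    refine ⟨xi_inj hd hf h4, ?_⟩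
    rw [h4, zero_add] at h0
    have h5 : (∑ j, w j • b j : W) = 0 := Subtype.ext h0
    funext j
    exact (Fintype.linearIndependent_iff.mp b.linearIndependent) w h5 j
  · intro u
    have h1 : u ∈ LinearMap.range (xiL f) ⊔ W := by
      rw [hW.sup_eq_top]
      trivial
    obtain ⟨y, ⟨Y, hY⟩, z, hz, hyz⟩ := Submodule.mem_sup.mp h1
    refine ⟨Y, b.repr ⟨z, hz⟩, ?_⟩
    have h2 := b.sum_repr ⟨z, hz⟩
    have h3 := congrArg (Subtype.val) h2
    have h4 : ((∑ j, b.repr ⟨z, hz⟩ j • b j : W) : Ix N d → k) =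
        ∑ j, b.repr ⟨z, hz⟩ j • (b j : Ix N d → k) := by
      rw [Submodule.coe_sum]
      rfl
    change ((∑ j, b.repr ⟨z, hz⟩ j • b j : W) : Ix N d → k) = z at h3
    rw [h4] at h3
    rw [h3, ← hyz, ← hY]
    rfl

/-- indices of the columns -/
abbrev Sg (N d : ℕ) : Type := (Fin (N + 1) × Fin (N + 1)) ⊕ Fin (mdim N d)

/-- the matrix of the tangent vectors at the generic point and the vectors `v` -/
def Mg (v : Fin (mdim N d) → (Ix N d → k)) (e : Ix N d ≃ Sg N d) :
    Matrix (Sg N d) (Sg N d) (MvPolynomial (Ix N d) k) := by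
  classical
  exact Matrix.of fun i j => Sum.elim
    (fun ab : Fin (N + 1) × Fin (N + 1) => xi (Matrix.single ab.1 ab.2 1) X (e.symm i))
    (fun j => C (v j (e.symm i))) j

/-- the matrix of the tangent vectors at `c` and the vectors `v` -/
def Mx (v : Fin (mdim N d) → (Ix N d → k)) (e : Ix N d ≃ Sg N d) (c : Ix N d → k) :
    Matrix (Sg N d) (Sg N d) k := by
  classical
  exact Matrix.of fun i j => Sum.elim
    (fun ab : Fin (N + 1) × Fin (N + 1) => xi (Matrix.single ab.1 ab.2 1) c (e.symm i))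
    (fun j => v j (e.symm i)) j

theorem eval_Mg (v : Fin (mdim N d) → (Ix N d → k)) (e : Ix N d ≃ Sg N d) (c : Ix N d → k) :
    eval c (Mg v e).det = (Mx v e c).det := by
  classical
  rw [RingHom.map_det]
  congr 1
  ext i j
  rw [RingHom.mapMatrix_apply, Matrix.map_apply]
  unfold Mg Mx
  rcases j with ⟨a, b⟩ | j
  · simp only [Matrix.of_apply, Sum.elim_inl]
    rw [map_xi]
    congr 1
    · ext i j
      simp only [Matrix.map_apply, Matrix.single_apply]
      split_ifs <;> simp
    · funext p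
      simp
  · simp only [Matrix.of_apply, Sum.elim_inr]
    rw [eval_C]

theorem sum_single (Y : Matrix (Fin (N + 1)) (Fin (N + 1)) k) :
    Y = ∑ ab : Fin (N + 1) × Fin (N + 1), Y ab.1 ab.2 • Matrix.single ab.1 ab.2 (1 : k) := by
  classical
  conv_lhs => rw [Matrix.matrix_eq_sum_single Y]
  rw [Fintype.sum_prod_type]
  refine Finset.sum_congr rfl fun i _ => Finset.sum_congr rfl fun j _ => ?_
  rw [Matrix.smul_single, smul_eq_mul, mul_one]

theorem xi_eq_sum (Y : Matrix (Fin (N + 1)) (Fin (N + 1)) k) (c : Ix N d → k) :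
    xi Y c = ∑ ab : Fin (N + 1) × Fin (N + 1), Y ab.1 ab.2 •
      xi (Matrix.single ab.1 ab.2 (1 : k)) c := by
  classical
  have h1 : xiL c Y = _ := congrArg (xiL c) (sum_single Y)
  rw [map_sum] at h1
  change xi Y c = _ at h1
  rw [h1]
  refine Finset.sum_congr rfl fun ab _ => ?_
  rw [map_smul]
  rfl

theorem Mx_det_ne {f : Ix N d → k} {v : Fin (mdim N d) → (Ix N d → k)} (e : Ix N d ≃ Sg N d)
    (hv : ∀ (Y : Matrix (Fin (N + 1)) (Fin (N + 1)) k) (w : Fin (mdim N d) → k),
        xi Y f + ∑ j, w j • v j = 0 → Y = 0 ∧ w = 0) : (Mx v e f).det ≠ 0 := by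
  classical
  intro h0
  obtain ⟨w, hw, hMw⟩ := Matrix.exists_mulVec_eq_zero_iff.mpr h0
  apply hw
  have h1 := hv (Matrix.of fun a b => w (Sum.inl (a, b))) (fun j => w (Sum.inr j)) (by
    rw [xi_eq_sum]
    funext p
    have h2 := congrFun hMw (e p)
    unfold Matrix.mulVec dotProduct Mx at h2
    simp only [Fintype.sum_sum_type, Matrix.of_apply, Sum.elim_inl, Sum.elim_inr,
      Equiv.symm_apply_apply, Pi.zero_apply] at h2
    simp only [Pi.add_apply, Finset.sum_apply, Pi.smul_apply, smul_eq_mul, Matrix.of_apply,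
      Pi.zero_apply]
    rw [← h2]
    congr 1
    · exact Finset.sum_congr rfl fun ab _ => by ring
    · exact Finset.sum_congr rfl fun j _ => by ring)
  obtain ⟨h2, h3⟩ := h1
  funext s
  rcases s with ⟨a, b⟩ | j
  · exact congrFun (congrFun h2 a) b
  · exact congrFun h3 j

/-- The dual basis. -/
theorem exists_dual {x : Ix N d → k} {v : Fin (mdim N d) → (Ix N d → k)} (e : Ix N d ≃ Sg N d)
    (hdet : (Mx v e x).det ≠ 0) :
    ∃ η : Fin (mdim N d) → ((Ix N d → k) →ₗ[k] k), (∀ j Y, η j (xi Y x) = 0) ∧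
      ∀ i j, η j (v i) = if i = j then 1 else 0 := by
  classical
  have hu : IsUnit (Mx v e x).det := isUnit_iff_ne_zero.mpr hdet
  have hinv := Matrix.nonsing_inv_mul _ hu
  refine ⟨fun j => ∑ s, (Mx v e x)⁻¹ (Sum.inr j) s • LinearMap.proj (e.symm s), ?_, ?_⟩
  · intro j Y
    rw [xi_eq_sum, map_sum]
    apply Finset.sum_eq_zero
    intro ab _
    rw [map_smul]
    have h1 := congrFun (congrFun hinv (Sum.inr j)) (Sum.inl ab)
    rw [Matrix.mul_apply, Matrix.one_apply_ne (by simp)] at h1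
    have h2 : (∑ s, (Mx v e x)⁻¹ (Sum.inr j) s • LinearMap.proj (e.symm s) :
        (Ix N d → k) →ₗ[k] k) (xi (Matrix.single ab.1 ab.2 (1 : k)) x) = 0 := by
      rw [LinearMap.sum_apply, ← h1]
      exact Finset.sum_congr rfl fun s _ => rfl
    rw [h2, smul_zero]
  · intro i j
    have h1 := congrFun (congrFun hinv (Sum.inr j)) (Sum.inr i)
    rw [Matrix.mul_apply, Matrix.one_apply] at h1
    have h2 : (∑ s, (Mx v e x)⁻¹ (Sum.inr j) s • LinearMap.proj (e.symm s) :
        (Ix N d → k) →ₗ[k] k) (v i) = if (Sum.inr j : Sg N d) = Sum.inr i then 1 else 0 := by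
      rw [LinearMap.sum_apply, ← h1]
      exact Finset.sum_congr rfl fun s _ => rfl
    rw [h2]
    by_cases hij : i = j
    · subst hij
      simp
    · rw [if_neg hij, if_neg]
      intro h
      exact hij (Sum.inr_injective h).symm

end

end Pool.Agent.Q55.SM
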