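import Pool.Agent.Q55.SM.Loc

/-!
Statements of the lemmas of project SM, second part: at a map without automorphisms the local ring
of `M_d^N` is regular.  Each with a complete proof on paper.  Lemma jobs: prove
`theorem xxx : S_YYY`.

Notation (files Defs, Der, Loc of this directory): `RF k N d` = field of rational functions on
`V = k^(Ix N d)`, `inc` the inclusion of the polynomials, `regRing f` = rational functions regular
at `f` (= localisation of the polynomial ring at `mId f`, a Noetherian local ring, instances in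
`Der`), `ev f` = value at `f`, `mem_max_iff`: membership in the maximal ideal iff `ev = 0`,
`derR f v` = derivative in the direction `v`, `locRing f` = the local ring of `M_d^N` at `[f]`,
`iota f : locRing f → regRing f` the inclusion, `mem_maxLoc`.
-/

open MvPolynomial

namespace Pool.Agent.Q55.SM

open Pool.Agent.Helper819.Dyn Pool.Agent.Helper819.Apolar

/-- **SM-EQ**.  An element of the local ring is a quotient of semi-invariants of the same weight.
Hypothesis `S_Sep` may be used: `theorem eqq (h : S_Sep) : S_Eq`.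

PROOF.  Let `h * inc Q = inc P`, `InvQuot P Q`, `eval f Q ≠ 0` (so `Q ≠ 0`).  Let `I` be the ideal
of all polynomials `B` for which there is a polynomial `G` with `B * P = G * Q`.  `Q ∈ I`.
`I` is stable: let `B * P = G * Q` and `det A ≠ 0`.  `compT A P * Q = P * compT A Q` (evaluate at
all `c`: `eval_compT`, `InvQuot.gl`).  So
`compT A B * P * compT A Q = compT A B * compT A P * Q = compT A G * compT A Q * Q`, cancel
`compT A Q ≠ 0` (as `compT A⁻¹ (compT A Q) = Q ≠ 0`, or: its value at `actT A⁻¹ f` is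
`eval f Q ≠ 0`): `compT A B * P = compT A G * Q`.
By `S_Sep` there is `R ∈ I`, `IsSemi w R`, `eval f R ≠ 0`, `R * P = G * Q`.  Then `h = G / R`:
`h * inc R * inc Q = inc P * inc R = inc G * inc Q`.
`G` is semi-invariant of weight `w`: for `det A ≠ 0` and all `c`:
`compT A G * compT A Q * Q = compT A R * compT A P * Q = C (det A ^ w) * R * P * compT A Q
= C (det A ^ w) * G * Q * compT A Q`, so `compT A G = C (det A ^ w) * G`.  For fixed `c` the
identity `eval (actT A c) G = det A ^ w * eval c G` holds for all `A` with `det A ≠ 0`, so it is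
an identity of polynomials in the entries of `A` (`poly_ext`, `eval_aeval_orb`, `eval_dt`: both
sides are `eval (ent A)` of `aeval (orb c) G` and of `dt (N+1) k ^ w * C (eval c G)`), hence it
holds for all `A`. -/
def S_Eq : Prop :=
  ∀ {k : Type} [Field k] [IsAlgClosed k] [CharZero k] {N d : ℕ} (_ : 2 ≤ d) (f : Ix N d → k)
    (_ : NZ (tup f)) (h : RF k N d) (_ : h ∈ locRing f),
    ∃ (w : ℕ) (P Q : MvPolynomial (Ix N d) k), IsSemi w P ∧ IsSemi w Q ∧ eval f Q ≠ 0 ∧
      h * inc k N d Q = inc k N d P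

/-- **SM-SEP** (done by helper55).  Separation: an ideal which is stable under the group and has
an element not vanishing at `f` contains a semi-invariant not vanishing at `f`. -/
def S_Sep : Prop :=
  ∀ {k : Type} [Field k] [IsAlgClosed k] [CharZero k] {N d : ℕ} (_ : 2 ≤ d) (f : Ix N d → k)
    (_ : NZ (tup f)) (I : Ideal (MvPolynomial (Ix N d) k))
    (_ : ∀ A : Matrix (Fin (N + 1)) (Fin (N + 1)) k, A.det ≠ 0 → ∀ P ∈ I, compT A P ∈ I)
    (_ : ∃ P ∈ I, eval f P ≠ 0),
    ∃ (w : ℕ) (R : MvPolynomial (Ix N d) k), IsSemi w R ∧ eval f R ≠ 0 ∧ R ∈ I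

/-- **SM-PURE**.  The inclusion of `locRing f` in `regRing f` is pure.
`theorem pure (h1 : S_Sep) (h2 : S_Eq) : S_Pure`.

PROOF.  `iota f x ∈ I.map (iota f)`, so `iota f x = ∑_{j ∈ s} o_j * iota f (g_j)` with
`o_j ∈ regRing f`, `g_j ∈ I`, `s` finite (`Submodule.span_induction` or
`Submodule.mem_span_image_iff_exists_fun` / `Ideal.mem_map...`; e.g. prove by
`Submodule.span_induction` the existence of `r : ℕ`, `o : Fin r → regRing f`, `g : Fin r → I`).
By `S_Eq`: `x = G / q`, `g_j = G_j / q_j` with `IsSemi w G`, `IsSemi w q`, `IsSemi (w_j) G_j`,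
`IsSemi (w_j) q_j`, `q(f) ≠ 0 ≠ q_j(f)`; also `o_j = U_j / W_j` with `W_j(f) ≠ 0`.
Let `I'` be the ideal of all `B` with `B * G ∈ Ideal.span {G_j}` (ideal of polynomials).
(a) `I'` contains `B = ∏_j (W_j * q_j)` (clear denominators in `G / q = ∑ U_j G_j / (W_j q_j)`:
`(∏ W_j q_j) G = q ∑_j U_j (∏_{i ≠ j} W_i q_i) G_j`), and `B(f) ≠ 0`.
(b) `I'` is stable: `compT A G = C (det A ^ w) * G` (evaluate), same for `G_j`; `compT A` is an
algebra homomorphism; if `B * G = ∑ a_j G_j` then
`compT A B * C (det^w) * G = ∑ compT A a_j * C (det^(w_j)) * G_j`.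
By `S_Sep` there is `R`, `IsSemi w' R`, `R(f) ≠ 0`, `R * G = ∑ a_j * G_j`.
(c) Reynolds operator.  For a semi-invariant `H` of weight `v` and any polynomial `a`:
`sharp u (a * H) = sharp (u - v) a * H` if `v ≤ u`, and `= 0` if `u < v`.
(`eval_sharp`: `eval c (sharp u P) = rho u (aeval (orb c) P)`; `aeval (orb c) H =
dt (N+1) k ^ v * C (eval c H)` by `poly_ext`, `eval_aeval_orb`; `rho_det_mul`:
`rho (w + 1) (dt * p) = rho w p`, so `rho (u) (dt ^ v * p) = rho (u - v) p`; if `u < v` then
`dt ^ v * p = dt ^ u * (dt * (dt ^ (v - u - 1) * p))`, and `rho_zero_det_mul`.)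
Apply `sharp (w' + w)`: `sharp (w' + w) (R * G) = sharp 0 1 * R * G = R * G`
(`rho 0 1 = 1`, from `rho_dt`), so with `b_j = sharp (w' + w - w_j) a_j` (or `0`):
`R * G = ∑ b_j * G_j`, `IsSemi (w' + w - w_j) b_j` (`isSemi_sharp`).
(d) `x = G / q = ∑_j (b_j q_j / (R q)) (G_j / q_j)`, and `b_j q_j / (R q) ∈ locRing f` since
numerator and denominator are semi-invariants of weight `w' + w` (`invQuot_of_semi`, file Act;
`0 < N + d`) and `R(f) q(f) ≠ 0`.  So `x = ∑ r_j g_j ∈ I`. -/
def S_Pure : Prop :=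
  ∀ {k : Type} [Field k] [IsAlgClosed k] [CharZero k] {N d : ℕ} (_ : 2 ≤ d) (f : Ix N d → k)
    (_ : NZ (tup f)) (I : Ideal (locRing f)) (x : locRing f)
    (_ : iota f x ∈ I.map (iota f : locRing f →+* regRing f)), x ∈ I

/-- **SM-EULER** (pure commutative algebra).  Let `O` be a Noetherian local `k`-algebra, `k` a
field of characteristic `0`, `J` an ideal contained in the maximal ideal `𝔫`, `ξ i` derivations
which preserve `J`, `t i ∈ 𝔫` with `y ≡ ∑ t i ξ i (y)` modulo `J + 𝔫²` for all `y ∈ 𝔫`.  Then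
every `x ∈ 𝔫` with `ξ i x ∈ J` for all `i` is in `J`.

PROOF.  Let `E = ∑ t i • ξ i`, a derivation.  `E(J) ⊆ J`.
(1) For all `s` and `y ∈ 𝔫^s`: `E y - s y ∈ J + 𝔫^(s+1)`.  `s = 0`: `E y ∈ 𝔫` since `t i ∈ 𝔫`.
`s = 1`: hypothesis.  Step: it is enough to consider products `a b`, `a ∈ 𝔫`, `b ∈ 𝔫^s`
(`Submodule.mul_induction_on`; the condition is additive in `y`): `E(ab) - (s+1) ab =
a (E b - s b) + b (E a - a)`, in `𝔫 (J + 𝔫^(s+1)) + 𝔫^s (J + 𝔫²) ⊆ J + 𝔫^(s+2)`.
(2) `x ∈ J + 𝔫^s` for all `s ≥ 1`.  `s = 1`: `x ∈ 𝔫`.  Step: `x = j + y`, `y ∈ 𝔫^s`;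
`E x = ∑ t i ξ i x ∈ J`, `E j ∈ J`, so `E y ∈ J`, so `s y ∈ J + 𝔫^(s+1)` by (1), and `s` is a
unit (`CharZero k`, `Algebra k O`), so `y ∈ J + 𝔫^(s+1)`.
(3) Krull's intersection theorem in the Noetherian local ring `O / J`
(`Ideal.iInf_pow_smul_eq_bot_of_isLocalRing` for the module `O ⧸ J`, or
`IsLocalRing` version `Ideal.iInf_pow_eq_bot_of_isLocalRing` for the ring `O ⧸ J`; `J ≠ ⊤`). -/
def S_Euler : Prop :=
  ∀ {k O : Type} [Field k] [CharZero k] [CommRing O] [IsLocalRing O] [IsNoetherianRing O]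
    [Algebra k O] {ι : Type} [Fintype ι] (ξ : ι → Derivation k O O) (t : ι → O) (J : Ideal O)
    (_ : J ≤ IsLocalRing.maximalIdeal O) (_ : ∀ i, t i ∈ IsLocalRing.maximalIdeal O)
    (_ : ∀ i, ∀ j ∈ J, ξ i j ∈ J)
    (_ : ∀ y ∈ IsLocalRing.maximalIdeal O,
      y - ∑ i, t i * ξ i y ∈ J ⊔ IsLocalRing.maximalIdeal O ^ 2)
    (x : O) (_ : x ∈ IsLocalRing.maximalIdeal O) (_ : ∀ i, ξ i x ∈ J), x ∈ J

/-- **SM-COT**.  A function regular at `f` with value `0` and differential `0` at `f` lies in the
square of the maximal ideal.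

PROOF.  `y * inc Q = inc P`, `Q(f) ≠ 0`; `P(f) = 0` (`ev_quot`) and `dP(f)(v) = 0` for all `v`
(`der_quot`, or `ev_derR` of file Main: `ev f (derR f v y) * Q(f)² = dP Q(f) - P(f) dQ`).
`P` is in the square of the ideal `(X p - f p)_p`: Taylor expansion at `f` (e.g. induction on `P`
for the statement: `P - C (P(f)) - ∑_p C ((∂_p P)(f)) * (X p - C (f p)) ∈ (mId f)^2`: true for
constants, additive, and for `P * X i` write `X i = C (f i) + (X i - C (f i))`).
So `inc P` (as an element of `regRing f`: `algebraMap`) is in the square of the maximal ideal, and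
`y = inc P / inc Q` with `Q` a unit of `regRing f`. -/
def S_Cot : Prop :=
  ∀ {k : Type} [Field k] {N d : ℕ} (f : Ix N d → k) (y : regRing f) (_ : ev f y = 0)
    (_ : ∀ v : Ix N d → k, ev f (derR f v y) = 0),
    y ∈ IsLocalRing.maximalIdeal (regRing f) ^ 2

/-- **SM-LOW** (pure commutative algebra).  Let `R → O` be a local homomorphism of Noetherian
local rings such that the maximal ideal `𝔫` of `O` is generated by the image of the maximal ideal
`𝔪` of `R` and the elements `t i`.  Then `dim O ≤ dim R + card ι`.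

PROOF.  `Ideal.height_le_height_add_of_liesOver` (`Mathlib/RingTheory/Ideal/KrullsHeightTheorem`)
for `P = 𝔫` lying over `p = 𝔪` (for the algebra structure `ι.toAlgebra`):
`height 𝔫 ≤ height 𝔪 + height (𝔫 / 𝔪 O)`.  The ideal `𝔫 / 𝔪 O` of `O / 𝔪 O` is generated by the
images of the `t i`, it is prime, so its height is at most `card ι` by Krull's height theorem
(`Ideal.height_le_spanRank` / `Ideal.height_le_spanFinrank`).  `ringKrullDim` of a local ring is
the height of its maximal ideal (`IsLocalRing.maximalIdeal_height_eq_ringKrullDim`). -/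
def S_Low : Prop :=
  ∀ {R O : Type} [CommRing R] [IsLocalRing R] [IsNoetherianRing R] [CommRing O] [IsLocalRing O]
    [IsNoetherianRing O] (φ : R →+* O)
    (_ : ∀ x ∈ IsLocalRing.maximalIdeal R, φ x ∈ IsLocalRing.maximalIdeal O)
    {ι : Type} [Fintype ι] (t : ι → O)
    (_ : IsLocalRing.maximalIdeal O =
      (IsLocalRing.maximalIdeal R).map φ ⊔ Ideal.span (Set.range t)),
    ringKrullDim O ≤ ringKrullDim R + (Fintype.card ι : ℕ)

/-- **SM-HT**.  The local ring of affine space at a point has dimension at least the number of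
coordinates.

PROOF.  `ringKrullDim (regRing f) = height (mId f)`
(`IsLocalization.AtPrime.ringKrullDim_eq_height`, instance `isLoc f`).  A chain of primes of length
`m = card (Ix N d)` ending at `mId f`: choose an equivalence `Ix N d ≃ Fin m`; the kernels of
`aeval (fun p => if index p < i then C (f p) else X p)`, `i = 0, …, m` (kernels of homomorphisms to
a domain are prime; `X p - C (f p)` with `index p = i` is in the `(i+1)`-st but not in the `i`-th
kernel; inclusion since the `(i+1)`-st homomorphism is the `i`-th followed by the substitution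
`X p ↦ C (f p)`).  Or: translate `f` to `0` and use a known height of the maximal ideal
`(X_1, …, X_m)`; or any other way. -/
def S_Ht : Prop :=
  ∀ {k : Type} [Field k] {N d : ℕ} (f : Ix N d → k),
    ((Fintype.card (Ix N d) : ℕ) : WithBot ℕ∞) ≤ ringKrullDim (regRing f)

end Pool.Agent.Q55.SM
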