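import Pool.Agent.Q55.SM.Main
import Pool.Agent.Q55.SM.Stm2

/-!
Assembly: points without automorphisms are regular.
-/

open MvPolynomial

namespace Pool.Agent.Q55.SM

open Pool.Agent.Helper819.Dyn Pool.Agent.Helper819.Apolar

noncomputable section

set_option linter.unusedSectionVars false

variable {k : Type} [Field k] {N d : ℕ}

theorem Mx_inl (v : Fin (mdim N d) → (Ix N d → k)) (e : Ix N d ≃ Sg N d) (x : Ix N d → k)
    (p : Ix N d) (ab : Fin (N + 1) × Fin (N + 1)) :
    Mx v e x (e p) (Sum.inl ab) = xi (Matrix.single ab.1 ab.2 (1 : k)) x p := by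
  unfold Mx
  rw [Matrix.of_apply, Sum.elim_inl, Equiv.symm_apply_apply]

theorem Mx_inr (v : Fin (mdim N d) → (Ix N d → k)) (e : Ix N d ≃ Sg N d) (x : Ix N d → k)
    (p : Ix N d) (j : Fin (mdim N d)) :
    Mx v e x (e p) (Sum.inr j) = v j p := by
  unfold Mx
  rw [Matrix.of_apply, Sum.elim_inr, Equiv.symm_apply_apply]

/-- The dual basis to the tangent vectors and the normal vectors. -/
theorem exists_dualAll {x : Ix N d → k} {v : Fin (mdim N d) → (Ix N d → k)}
    (e : Ix N d ≃ Sg N d) (hdet : (Mx v e x).det ≠ 0) :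
    ∃ θ : (Fin (N + 1) × Fin (N + 1)) → ((Ix N d → k) →ₗ[k] k),
    ∃ η : Fin (mdim N d) → ((Ix N d → k) →ₗ[k] k),
      (∀ j Y, η j (xi Y x) = 0) ∧ (∀ i j, η j (v i) = if i = j then 1 else 0) ∧
      ∀ u : Ix N d → k, u = ∑ ab : Fin (N + 1) × Fin (N + 1),
        θ ab u • xi (Matrix.single ab.1 ab.2 (1 : k)) x + ∑ j, η j u • v j := by
  classical
  have hu : IsUnit (Mx v e x).det := isUnit_iff_ne_zero.mpr hdet
  have hinv := Matrix.nonsing_inv_mul _ hu
  have hinv' := Matrix.mul_nonsing_inv _ hu
  let L : Sg N d → ((Ix N d → k) →ₗ[k] k) := fun j =>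
    ∑ s, (Mx v e x)⁻¹ j s • LinearMap.proj (e.symm s)
  have hL : ∀ j u, L j u = ∑ s, (Mx v e x)⁻¹ j s * u (e.symm s) := by
    intro j u
    change (∑ s, (Mx v e x)⁻¹ j s • LinearMap.proj (e.symm s) : (Ix N d → k) →ₗ[k] k) u = _
    rw [LinearMap.sum_apply]
    exact Finset.sum_congr rfl fun s _ => rfl
  have hcol : ∀ j s', ∑ s, (Mx v e x)⁻¹ j s * Mx v e x s s' = if j = s' then 1 else 0 := by
    intro j s'
    have h1 := congrFun (congrFun hinv j) s'
    rw [Matrix.mul_apply, Matrix.one_apply] at h1
    exact h1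
  refine ⟨fun ab => L (Sum.inl ab), fun j => L (Sum.inr j), ?_, ?_, ?_⟩
  · intro j Y
    rw [xi_eq_sum, map_sum]
    apply Finset.sum_eq_zero
    intro ab _
    rw [map_smul]
    have h1 := hcol (Sum.inr j) (Sum.inl ab)
    rw [if_neg (by simp)] at h1
    have h2 : L (Sum.inr j) (xi (Matrix.single ab.1 ab.2 (1 : k)) x) = 0 := by
      rw [hL, ← h1]
      exact Finset.sum_congr rfl fun s _ => rfl
    rw [h2, smul_zero]
  · intro i j
    have h1 := hcol (Sum.inr j) (Sum.inr i)
    have h2 : L (Sum.inr j) (v i) = if (Sum.inr j : Sg N d) = Sum.inr i then 1 else 0 := by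
      rw [hL, ← h1]
      exact Finset.sum_congr rfl fun s _ => rfl
    change L (Sum.inr j) (v i) = _
    rw [h2]
    by_cases hij : i = j
    · subst hij
      simp
    · rw [if_neg hij, if_neg]
      intro h
      exact hij (Sum.inr_injective h).symm
  · intro u
    funext p
    have h1 : ∀ t : Sg N d, ∑ s, Mx v e x t s * L s u = u (e.symm t) := by
      intro t
      have h2 : ∀ s, Mx v e x t s * L s u =
          ∑ r, (Mx v e x t s * (Mx v e x)⁻¹ s r) * u (e.symm r) := by
        intro s
        rw [hL, Finset.mul_sum]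
        exact Finset.sum_congr rfl fun r _ => by ring
      rw [Finset.sum_congr rfl fun s _ => h2 s, Finset.sum_comm]
      have h3 : ∀ r, ∑ s, (Mx v e x t s * (Mx v e x)⁻¹ s r) * u (e.symm r) =
          (if t = r then 1 else 0) * u (e.symm r) := by
        intro r
        rw [← Finset.sum_mul]
        have h4 := congrFun (congrFun hinv' t) r
        rw [Matrix.mul_apply, Matrix.one_apply] at h4
        rw [h4]
      rw [Finset.sum_congr rfl fun r _ => h3 r]
      simp
    have h2 := h1 (e p)
    rw [Equiv.symm_apply_apply, Fintype.sum_sum_type] at h2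
    rw [← h2, Pi.add_apply, Finset.sum_apply, Finset.sum_apply]
    refine congrArg₂ (· + ·) (Finset.sum_congr rfl fun ab _ => ?_)
      (Finset.sum_congr rfl fun j _ => ?_)
    · rw [Pi.smul_apply, smul_eq_mul, mul_comm, Mx_inl]
    · rw [Pi.smul_apply, smul_eq_mul, mul_comm, Mx_inr]

/-- The vector field of the infinitesimal action on functions regular at `f`. -/
def vf (f : Ix N d → k) (Y : Matrix (Fin (N + 1)) (Fin (N + 1)) k) :
    Derivation k (regRing f) (regRing f) := by
  classical
  exact ∑ p : Ix N d, algebraMap (MvPolynomial (Ix N d) k) (regRing f)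
    (xi (Y.map C) (X : Ix N d → MvPolynomial (Ix N d) k) p) • derR f (Pi.single p 1)

theorem vf_apply (f : Ix N d → k) (Y : Matrix (Fin (N + 1)) (Fin (N + 1)) k) (y : regRing f) :
    vf f Y y = ∑ p : Ix N d, algebraMap (MvPolynomial (Ix N d) k) (regRing f)
      (xi (Y.map C) (X : Ix N d → MvPolynomial (Ix N d) k) p) *
        derR f (Pi.single p 1) y := by
  classical
  unfold vf
  have h1 := map_sum (Derivation.coeFnAddMonoidHom :
    Derivation k (regRing f) (regRing f) →+ (regRing f → regRing f))
    (fun p : Ix N d => algebraMap (MvPolynomial (Ix N d) k) (regRing f)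
    (xi (Y.map C) (X : Ix N d → MvPolynomial (Ix N d) k) p) • derR f (Pi.single p 1)) Finset.univ
  have h2 := congrFun h1 y
  rw [Finset.sum_apply] at h2
  exact h2

theorem pd_single (p : Ix N d) (P : MvPolynomial (Ix N d) k) :
    pd (Pi.single p 1) P = pderiv p P := by
  classical
  unfold pd
  rw [Finset.sum_eq_single p]
  · simp
  · intro q _ hq
    rw [Pi.single_eq_of_ne hq, C_0, zero_mul]
  · simp

theorem eval_xiX (Y : Matrix (Fin (N + 1)) (Fin (N + 1)) k) (c : Ix N d → k) (p : Ix N d) :
    eval c (xi (Y.map C) (X : Ix N d → MvPolynomial (Ix N d) k) p) = xi Y c p := by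
  rw [map_xi]
  congr 1
  · ext i j
    simp
  · funext q
    simp

theorem ev_vf (f : Ix N d → k) (Y : Matrix (Fin (N + 1)) (Fin (N + 1)) k) (y : regRing f) :
    ev f (vf f Y y) = ∑ p : Ix N d, xi Y f p * ev f (derR f (Pi.single p 1) y) := by
  rw [vf_apply, map_sum]
  refine Finset.sum_congr rfl fun p _ => ?_
  rw [map_mul, ev_algebraMap, eval_xiX]

theorem ev_derR_sum (f u : Ix N d → k) (y : regRing f) :
    ev f (derR f u y) = ∑ p : Ix N d, u p * ev f (derR f (Pi.single p 1) y) := by
  obtain ⟨P, Q, hQ, hy⟩ := y.2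
  apply mul_right_cancel₀ (mul_ne_zero hQ hQ)
  rw [ev_derR f u y hy, Finset.sum_mul]
  have h1 : ∀ p, u p * ev f (derR f (Pi.single p 1) y) * (eval f Q * eval f Q) =
      (u p * eval f (pderiv p P)) * eval f Q - eval f P * (u p * eval f (pderiv p Q)) := by
    intro p
    have h2 := ev_derR f (Pi.single p 1) y hy
    rw [← eval_pd, ← eval_pd, pd_single, pd_single] at h2
    linear_combination u p * h2
  rw [Finset.sum_congr rfl fun p _ => h1 p, Finset.sum_sub_distrib, ← Finset.sum_mul,
    ← Finset.mul_sum]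
  rfl

theorem ev_vf' (f : Ix N d → k) (Y : Matrix (Fin (N + 1)) (Fin (N + 1)) k) (y : regRing f) :
    ev f (vf f Y y) = ev f (derR f (xi Y f) y) := by
  rw [ev_vf, ev_derR_sum]

theorem ev_derR_add (f u u' : Ix N d → k) (y : regRing f) :
    ev f (derR f (u + u') y) = ev f (derR f u y) + ev f (derR f u' y) := by
  rw [ev_derR_sum, ev_derR_sum f u, ev_derR_sum f u', ← Finset.sum_add_distrib]
  exact Finset.sum_congr rfl fun p _ => by rw [Pi.add_apply, add_mul]

theorem ev_derR_comb {ι : Type} [Fintype ι] (f : Ix N d → k) (w : ι → k)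
    (u : ι → (Ix N d → k)) (y : regRing f) :
    ev f (derR f (∑ i, w i • u i) y) = ∑ i, w i * ev f (derR f (u i) y) := by
  rw [ev_derR_sum]
  simp only [ev_derR_sum f (u _), Finset.mul_sum]
  rw [Finset.sum_comm]
  refine Finset.sum_congr rfl fun p _ => ?_
  rw [Finset.sum_apply, Finset.sum_mul]
  refine Finset.sum_congr rfl fun j _ => ?_
  rw [Pi.smul_apply, smul_eq_mul, mul_assoc]

/-- Invariant functions are killed by the vector fields of the action. -/
theorem vf_inv [Infinite k] (f : Ix N d → k) (Y : Matrix (Fin (N + 1)) (Fin (N + 1)) k)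
    (x : locRing f) : vf f Y (iota f x) = 0 := by
  classical
  obtain ⟨P, Q, hQ, hPQ, hx⟩ := x.2
  have hx' : (iota f x).1 * inc k N d Q = inc k N d P := hx
  have hQ0 := inc_ne (ne_of_eval hQ)
  -- polynomial identity
  have h1 : (∑ p, xi (Y.map C) (X : Ix N d → MvPolynomial (Ix N d) k) p * pderiv p P) * Q =
      P * ∑ p, xi (Y.map C) (X : Ix N d → MvPolynomial (Ix N d) k) p * pderiv p Q := by
    apply MvPolynomial.funext
    intro c
    rw [map_mul, map_mul, map_sum, map_sum]
    simp only [map_mul, eval_xiX]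
    exact hPQ.tangent Y c
  apply Subtype.ext
  have h2 : ((vf f Y (iota f x)).1 : RF k N d) = ∑ p, inc k N d
      (xi (Y.map C) (X : Ix N d → MvPolynomial (Ix N d) k) p) *
        der (Pi.single p 1) (iota f x).1 := by
    rw [vf_apply]
    have h3 := map_sum ((regRing f).val : regRing f →+* RF k N d) (fun p =>
      algebraMap (MvPolynomial (Ix N d) k) (regRing f)
      (xi (Y.map C) (X : Ix N d → MvPolynomial (Ix N d) k) p) *
        derR f (Pi.single p 1) (iota f x)) Finset.univ
    exact h3
  rw [h2]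
  change _ = (0 : RF k N d)
  have hQQ : inc k N d (Q * Q) ≠ 0 := by
    rw [map_mul]
    exact mul_ne_zero hQ0 hQ0
  apply mul_right_cancel₀ hQQ
  rw [zero_mul, Finset.sum_mul]
  have h4 : ∀ p, inc k N d (xi (Y.map C) (X : Ix N d → MvPolynomial (Ix N d) k) p) *
        der (Pi.single p 1) (iota f x).1 * inc k N d (Q * Q) =
      inc k N d ((xi (Y.map C) (X : Ix N d → MvPolynomial (Ix N d) k) p * pderiv p P) * Q -
        P * (xi (Y.map C) (X : Ix N d → MvPolynomial (Ix N d) k) p * pderiv p Q)) := by
    intro p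
    rw [mul_assoc, der_quot _ hx', pd_single, pd_single, ← map_mul]
    congr 1
    ring
  rw [Finset.sum_congr rfl fun p _ => h4 p, ← map_sum, Finset.sum_sub_distrib, ← Finset.sum_mul,
    ← Finset.mul_sum, h1, sub_self, map_zero]

/-- a linear coordinate at `f` -/
def lco (f : Ix N d → k) (θ : (Ix N d → k) →ₗ[k] k) : regRing f := by
  classical
  exact algebraMap (MvPolynomial (Ix N d) k) (regRing f)
    (∑ p, C (θ (Pi.single p 1)) * (X p - C (f p)))

theorem ev_lco (f : Ix N d → k) (θ : (Ix N d → k) →ₗ[k] k) : ev f (lco f θ) = 0 := by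
  classical
  unfold lco
  rw [ev_algebraMap, map_sum]
  apply Finset.sum_eq_zero
  intro p _
  rw [map_mul, map_sub, eval_X, eval_C, eval_C, sub_self, mul_zero]

theorem ev_derR_lco (f : Ix N d → k) (θ : (Ix N d → k) →ₗ[k] k) (v : Ix N d → k) :
    ev f (derR f v (lco f θ)) = θ v := by
  classical
  have h1 := ev_derR f v (lco f θ) (P := ∑ p, C (θ (Pi.single p 1)) * (X p - C (f p))) (Q := 1)
    (by
      rw [map_one, mul_one]
      rfl)
  rw [← eval_pd, ← eval_pd, map_one, one_mul, mul_one, mul_one] at h1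
  have h2 : pd v (1 : MvPolynomial (Ix N d) k) = 0 := by
    have := pd_C v (1 : k)
    rwa [C_1] at this
  rw [h2, map_zero, mul_zero, sub_zero] at h1
  rw [h1]
  have h3 : ∀ s : Finset (Ix N d), pd v (∑ p ∈ s, C (θ (Pi.single p 1)) * (X p - C (f p))) =
      ∑ p ∈ s, C (θ (Pi.single p 1)) * C (v p) := by
    intro s
    induction s using Finset.induction_on with
    | empty => simp [pd]
    | insert a s ha ih =>
      rw [Finset.sum_insert ha, Finset.sum_insert ha, pd_add, ih, pd_mul, pd_C, zero_mul,
        zero_add, sub_eq_add_neg, ← C_neg, pd_add, pd_X, pd_C, add_zero]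
  rw [h3, map_sum]
  have h4 : v = ∑ p, v p • (Pi.single p 1 : Ix N d → k) := by
    funext q
    rw [Finset.sum_apply, Finset.sum_eq_single q]
    · simp
    · intro p _ hp
      rw [Pi.smul_apply, Pi.single_eq_of_ne (Ne.symm hp), smul_zero]
    · simp
  conv_rhs => rw [h4, map_sum]
  refine Finset.sum_congr rfl fun p _ => ?_
  rw [map_mul, eval_C, eval_C, map_smul, smul_eq_mul, mul_comm]

/-- Ideals of the local ring are contracted, so it is Noetherian. -/
theorem noeth [IsAlgClosed k] [CharZero k] (hPure : S_Pure) (hd : 2 ≤ d) {f : Ix N d → k}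
    (hf : NZ (tup f)) : IsNoetherianRing (locRing f) := by
  have hW : WellFoundedGT (Ideal (regRing f)) :=
    (isNoetherian_iff'.mp (inferInstance : IsNoetherianRing (regRing f)))
  apply isNoetherian_iff'.mpr
  have hmono : StrictMono (fun I : Ideal (locRing f) =>
      I.map (iota f : locRing f →+* regRing f)) := by
    intro I J hIJ
    refine lt_of_le_of_ne (Ideal.map_mono hIJ.le) ?_
    intro heq
    apply hIJ.ne
    apply le_antisymm hIJ.le
    intro x hx
    apply hPure hd f hf I x
    have h1 : iota f x ∈ J.map (iota f : locRing f →+* regRing f) :=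
      Ideal.mem_map_of_mem (iota f : locRing f →+* regRing f) hx
    have heq' : I.map (iota f : locRing f →+* regRing f) =
      J.map (iota f : locRing f →+* regRing f) := heq
    rw [heq']
    exact h1
  exact hmono.wellFoundedGT

/-- At a map without automorphisms the maximal ideal of the local ring is generated by
`mdim N d` elements, and the dimension of the local ring is at least `mdim N d`. -/
theorem main_reg [IsAlgClosed k] [CharZero k] (hPure : S_Pure) (hEuler : S_Euler)
    (hCot : S_Cot) (hLow : S_Low) (hHt : S_Ht) (hd : 2 ≤ d) {f : Ix N d → k}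
    (hf : NZ (tup f)) (haut : ¬ HasAut f) : IsRegularLocalRing (locRing f) := by
  classical
  obtain ⟨hcard, v, hv1, hv2⟩ := exists_normal hd hf
  obtain ⟨e⟩ : Nonempty (Ix N d ≃ Sg N d) := by
    refine ⟨Fintype.equivOfCardEq ?_⟩
    rw [hcard]
    simp
  obtain ⟨w, D, hD, hDf, hDNZ⟩ := exists_semi_NZ hd hf
  obtain ⟨θ, η, hη1, hη2, hdual⟩ := exists_dualAll e (Mx_det_ne e hv1)
  choose m q hq1 hq2 hq3 using fun j => exists_semi_diff hd hf haut hD hDNZ (η j) (hη1 j)
  have hDm : ∀ j, eval f (D ^ m j) ≠ 0 := fun j => by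
    rw [map_pow]
    exact pow_ne_zero _ hDf
  have hg : ∀ j, ∃ g : locRing f, g.1 * inc k N d (D ^ m j) = inc k N d (q j) := by
    intro j
    have h0 := inc_ne (ne_of_eval (hDm j))
    refine ⟨⟨inc k N d (q j) * (inc k N d (D ^ m j))⁻¹, q j, D ^ m j, hDm j, ?_, ?_⟩, ?_⟩
    · have h1 := hD.pow (m j)
      rw [mul_comm] at h1
      exact invQuot_of_semi (by omega) (hq1 j) h1
    · change inc k N d (q j) * (inc k N d (D ^ m j))⁻¹ * inc k N d (D ^ m j) = inc k N d (q j)
      rw [mul_assoc, inv_mul_cancel₀ h0, mul_one]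
    · change inc k N d (q j) * (inc k N d (D ^ m j))⁻¹ * inc k N d (D ^ m j) = inc k N d (q j)
      rw [mul_assoc, inv_mul_cancel₀ h0, mul_one]
  choose g hg using hg
  have hg0 : ∀ j, ev f (iota f (g j)) = 0 := by
    intro j
    have h1 := ev_quot f (iota f (g j)) (hg j)
    rw [hq2] at h1
    exact (mul_eq_zero.mp h1).resolve_right (hDm j)
  have hg1 : ∀ j u, ev f (derR f u (iota f (g j))) = η j u := by
    intro j u
    have h1 := ev_derR f u (iota f (g j)) (hg j)
    rw [hq2, zero_mul, sub_zero, hq3, map_pow] at h1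
    have h2 : eval f D ^ m j * eval f D ^ m j ≠ 0 :=
      mul_ne_zero (pow_ne_zero _ hDf) (pow_ne_zero _ hDf)
    apply mul_right_cancel₀ h2
    rw [h1]
    ring
  -- the objects in `regRing f`
  obtain ⟨J, hJdef⟩ : ∃ J : Ideal (regRing f), J = Ideal.span (Set.range fun j => iota f (g j)) :=
    ⟨_, rfl⟩
  let ξ : (Fin (N + 1) × Fin (N + 1)) → Derivation k (regRing f) (regRing f) := fun ab =>
    vf f (Matrix.single ab.1 ab.2 (1 : k))
  let t : (Fin (N + 1) × Fin (N + 1)) → regRing f := fun ab => lco f (θ ab)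
  have hJle : J ≤ IsLocalRing.maximalIdeal (regRing f) := by
    rw [hJdef, Ideal.span_le]
    rintro _ ⟨j, rfl⟩
    exact (mem_max_iff f _).mpr (hg0 j)
  have ht : ∀ ab, t ab ∈ IsLocalRing.maximalIdeal (regRing f) := fun ab =>
    (mem_max_iff f _).mpr (ev_lco f (θ ab))
  have hξJ : ∀ ab, ∀ j ∈ J, ξ ab j ∈ J := by
    intro ab j hj
    rw [hJdef] at hj
    refine Submodule.span_induction (p := fun y _ => ξ ab y ∈ J) ?_ ?_ ?_ ?_ hj
    · rintro _ ⟨i, rfl⟩
      have h1 : ξ ab (iota f (g i)) = 0 := vf_inv f _ (g i)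
      rw [h1]
      exact J.zero_mem
    · rw [map_zero]
      exact J.zero_mem
    · intro x y _ _ hx hy
      rw [map_add]
      exact J.add_mem hx hy
    · intro a x hx' hx
      rw [smul_eq_mul, Derivation.leibniz, smul_eq_mul, smul_eq_mul]
      refine J.add_mem (J.mul_mem_left _ hx) (J.mul_mem_right _ ?_)
      rw [hJdef]
      exact hx'
  have hE : ∀ y ∈ IsLocalRing.maximalIdeal (regRing f),
      y - ∑ ab, t ab * ξ ab y ∈ J ⊔ IsLocalRing.maximalIdeal (regRing f) ^ 2 := by
    intro y hy
    have hy0 : ev f y = 0 := (mem_max_iff f y).mp hy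
    obtain ⟨c, hc⟩ : ∃ c : Fin (mdim N d) → k, c = fun j => ev f (derR f (v j) y) := ⟨_, rfl⟩
    have h1 : y - ∑ ab, t ab * ξ ab y - ∑ j, algebraMap k (regRing f) (c j) * iota f (g j) ∈
        IsLocalRing.maximalIdeal (regRing f) ^ 2 := by
      apply hCot
      · rw [map_sub, map_sub, map_sum, map_sum, hy0]
        rw [Finset.sum_eq_zero fun ab _ => by
          rw [map_mul, show ev f (t ab) = 0 from ev_lco f (θ ab), zero_mul]]
        rw [Finset.sum_eq_zero fun j _ => by rw [map_mul, hg0, mul_zero]]
        simp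
      · intro u
        rw [map_sub, map_sub, map_sum, map_sum, map_sub, map_sub, map_sum, map_sum]
        have h2 : ∀ ab, ev f (derR f u (t ab * ξ ab y)) =
            θ ab u * ev f (derR f (xi (Matrix.single ab.1 ab.2 (1 : k)) f) y) := by
          intro ab
          rw [Derivation.leibniz, smul_eq_mul, smul_eq_mul, map_add, map_mul, map_mul,
            show ev f (t ab) = 0 from ev_lco f (θ ab), zero_mul, zero_add,
            show ev f (derR f u (t ab)) = θ ab u from ev_derR_lco f (θ ab) u,
            show ev f (ξ ab y) = _ from ev_vf' f _ y, mul_comm]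
        have h3 : ∀ j, ev f (derR f u (algebraMap k (regRing f) (c j) * iota f (g j))) =
            η j u * ev f (derR f (v j) y) := by
          intro j
          rw [Derivation.leibniz, Derivation.map_algebraMap, smul_zero, add_zero, smul_eq_mul,
            map_mul, ev_const, hg1, hc, mul_comm]
        rw [Finset.sum_congr rfl fun ab _ => h2 ab, Finset.sum_congr rfl fun j _ => h3 j]
        have h4 : ev f (derR f u y) = ∑ ab : Fin (N + 1) × Fin (N + 1),
            θ ab u * ev f (derR f (xi (Matrix.single ab.1 ab.2 (1 : k)) f) y) +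
            ∑ j, η j u * ev f (derR f (v j) y) := by
          conv_lhs => rw [hdual u]
          rw [ev_derR_add, ev_derR_comb, ev_derR_comb]
        rw [h4]
        ring
    have h5 : ∑ j, algebraMap k (regRing f) (c j) * iota f (g j) ∈ J := by
      apply J.sum_mem
      intro j _
      apply J.mul_mem_left
      rw [hJdef]
      exact Ideal.subset_span ⟨j, rfl⟩
    have h6 : y - ∑ ab, t ab * ξ ab y =
        ∑ j, algebraMap k (regRing f) (c j) * iota f (g j) +
        (y - ∑ ab, t ab * ξ ab y - ∑ j, algebraMap k (regRing f) (c j) * iota f (g j)) := by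
      ring
    rw [h6]
    exact Submodule.add_mem_sup h5 h1
  -- the maximal ideal
  have hIJ : (Ideal.span (Set.range g)).map (iota f : locRing f →+* regRing f) = J := by
    rw [Ideal.map_span, hJdef]
    congr 1
    rw [← Set.range_comp]
    rfl
  have hmax : IsLocalRing.maximalIdeal (locRing f) = Ideal.span (Set.range g) := by
    apply le_antisymm
    · intro x hx
      apply hPure hd f hf
      rw [hIJ]
      apply hEuler ξ t J hJle ht hξJ hE
      · exact iota_max f x hx
      · intro ab
        rw [show ξ ab (iota f x) = 0 from vf_inv f _ x]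
        exact J.zero_mem
    · rw [Ideal.span_le]
      rintro _ ⟨j, rfl⟩
      exact (mem_maxLoc f _).mpr (hg0 j)
  haveI hN : IsNoetherianRing (locRing f) := noeth hPure hd hf
  -- the maximal ideal of `regRing f`
  have hmax' : IsLocalRing.maximalIdeal (regRing f) =
      (IsLocalRing.maximalIdeal (locRing f)).map (iota f : locRing f →+* regRing f) ⊔
        Ideal.span (Set.range t) := by
    rw [hmax, hIJ]
    apply le_antisymm
    · apply Submodule.le_of_le_smul_of_le_jacobson_bot
        (I := IsLocalRing.maximalIdeal (regRing f)) (IsNoetherian.noetherian _)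
        (IsLocalRing.maximalIdeal_le_jacobson _)
      intro y hy
      have h1 := hE y hy
      have h2 : ∑ ab, t ab * ξ ab y ∈ Ideal.span (Set.range t) := by
        apply Ideal.sum_mem
        intro ab _
        exact Ideal.mul_mem_right _ _ (Ideal.subset_span ⟨ab, rfl⟩)
      obtain ⟨a, ha, b, hb, hab⟩ := Submodule.mem_sup.mp h1
      have h3 : y = (a + ∑ ab, t ab * ξ ab y) + b := by
        linear_combination -hab
      rw [h3]
      apply Submodule.add_mem_sup
      · exact Submodule.add_mem_sup ha h2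
      · rw [smul_eq_mul, ← pow_two]
        exact hb
    · apply sup_le hJle
      rw [Ideal.span_le]
      rintro _ ⟨ab, rfl⟩
      exact ht ab
  have hdim : (mdim N d : WithBot ℕ∞) ≤ ringKrullDim (locRing f) := by
    have h1 := hLow (iota f : locRing f →+* regRing f) (iota_max f) t hmax'
    have h2 := (hHt f).trans h1
    rw [hcard] at h2
    rw [Fintype.card_prod, Fintype.card_fin] at h2
    generalize ringKrullDim (locRing f) = r at h2
    induction r with
    | bot =>
      exfalso
      rw [WithBot.bot_add] at h2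
      exact (not_le_of_gt (WithBot.bot_lt_coe _)) h2
    | coe r =>
      induction r with
      | top => exact le_top
      | coe r =>
        have h3 : (N + 1) * (N + 1) + mdim N d ≤ r + (N + 1) * (N + 1) := by exact_mod_cast h2
        have h4 : mdim N d ≤ r := by omega
        exact_mod_cast h4
  apply IsRegularLocalRing.of_spanFinrank_maximalIdeal_le
  refine le_trans ?_ hdim
  rw [hmax]
  have h1 := Submodule.spanFinrank_span_le_ncard_of_finite (R := locRing f)
    (Set.finite_range g)
  have h2 : (Set.range g).ncard ≤ mdim N d := by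
    rw [← Set.image_univ]
    refine (Set.ncard_image_le Set.finite_univ).trans ?_
    rw [Set.ncard_univ, Nat.card_eq_fintype_card, Fintype.card_fin]
  exact_mod_cast h1.trans h2

end

end Pool.Agent.Q55.SM
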