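import Pool.Agent.Q55.SM.Stm2

/-!
Separation: stable ideals contain semi-invariants.
-/

open MvPolynomial

namespace Pool.Agent.Q55.SM

open Pool.Agent.Helper819.Dyn Pool.Agent.Helper819.Apolar

theorem sep : S_Sep := by
  intro k _ _ _ N d hd f hf I hI hfI
  obtain ⟨P0, hP0, hfP0⟩ := hfI
  obtain ⟨w, R, hR, hfR, hZR⟩ := exists_semi hd hf {c | ∀ P ∈ I, eval c P = 0} (by
    intro c hc P hP
    apply hc
    intro z hz
    exact hz P hP) (by
    intro A hA z hz P hP
    rw [← eval_compT]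
    exact hz _ (hI A hA P hP)) (by
    intro hf0
    exact hfP0 (hf0 P0 hP0))
  have h1 : R ∈ I.radical := by
    rw [← vanishingIdeal_zeroLocus_eq_radical (K := k), mem_vanishingIdeal_iff]
    intro x hx
    have h2 : aeval x R = eval x R := by
      rw [← coe_aeval_eq_eval]
      rfl
    rw [h2]
    apply hZR
    intro P hP
    have h3 := (mem_zeroLocus_iff.mp hx) P hP
    rw [← coe_aeval_eq_eval]
    exact h3
  obtain ⟨s, hs⟩ := h1
  refine ⟨w * s, R ^ s, hR.pow s, ?_, hs⟩
  rw [map_pow]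
  exact pow_ne_zero _ hfR

end Pool.Agent.Q55.SM
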